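import Pool.Agent.Y803.SEL.Out

/-! Number fields and their absolute Galois groups. -/

set_option autoImplicit false

namespace Pool.Agent.Y803.SEL.Out

open Pool.Agent.Y800

/-- The algebraic extensions of `k` inside the algebraic closure of `k`. -/
abbrev Ext (k : Type) [Field k] : Type := IntermediateField k (AlgebraicClosure k)

/-- The degree of `K` over `k` (zero if it is infinite). -/
noncomputable def degree {k : Type} [Field k] (K : Ext k) : ℕ := Module.finrank k K

/-- The field generated by the `f`-th roots of unity. -/
noncomputable def cyclo (k : Type) [Field k] (f : ℕ) : Ext k :=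
  IntermediateField.adjoin k {z : AlgebraicClosure k | z ^ f = 1}

/-- The absolute Galois group of `F`. -/
def GalF {k : Type} [Field k] (F : Ext k) : Type := F.fixingSubgroup

noncomputable instance {k : Type} [Field k] (F : Ext k) : Group (GalF F) :=
  inferInstanceAs (Group F.fixingSubgroup)

noncomputable instance {k : Type} [Field k] (F : Ext k) : TopologicalSpace (GalF F) :=
  inferInstanceAs (TopologicalSpace F.fixingSubgroup)

/-- The inclusion of the absolute Galois group of `F` in that of `k`. -/
noncomputable def incl {k : Type} [Field k] (F : Ext k) : GalF F →* AbsGal k :=
  F.fixingSubgroup.subtype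

/-- The absolute Galois group of `K` in that of `F`: the elements which fix `K`. -/
noncomputable def galIn {k : Type} [Field k] (F K : Ext k) : Subgroup (GalF F) :=
  K.fixingSubgroup.comap (incl F)

end Pool.Agent.Y803.SEL.Out
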