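import Pool.Agent.Y803.SEL.Fields
import Pool.Agent.Y803.SEL.OutF

/-! The two forms of the definitions agree. -/

set_option autoImplicit false
set_option linter.all false

namespace Pool.Agent.Y803.SEL.Bridge

open Pool.Agent.Y800 Pool.Agent.Y803.SEL
open scoped Pointwise

variable {p : ℕ} [Fact p.Prime] {n : ℕ} {F : Out.Ext ℚ}
  {ρ : Out.GalF F →* GL (Fin n) ℤ_[p]} {N₀ : ℕ}

/-- the same local conditions -/
def old (𝓛 : Out.LocCond (Out.incl F) ρ N₀) : LocalConditions (Γ := absGal F) ρ N₀ where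
  S := 𝓛.S
  isMaximal := 𝓛.isMaximal
  mem := 𝓛.mem
  L := 𝓛.L
  locality := 𝓛.locality
  coboundary := 𝓛.coboundary
  stable := 𝓛.stable
  equivariant := 𝓛.equivariant

theorem rank_selmer (𝓛 : Out.LocCond (Out.incl F) ρ N₀) (H : Subgroup (absGal F)) :
    Module.finrank ℚ_[p] (Out.Selmer 𝓛 H) = Module.finrank ℚ_[p] (Selmer (old 𝓛) H) := rfl

theorem finite_selmer (𝓛 : Out.LocCond (Out.incl F) ρ N₀) (H : Subgroup (absGal F))
    (h : FiniteDimensional ℚ_[p] (Selmer (old 𝓛) H)) :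
    FiniteDimensional ℚ_[p] (Out.Selmer 𝓛 H) := h

theorem rank_res (𝓛 : Out.LocCond (Out.incl F) ρ N₀) :
    Module.finrank (ZMod p) (Out.ResSelmer 𝓛) = Module.finrank (ZMod p) (ResSelmer (old 𝓛)) := rfl

theorem finite_res' (𝓛 : Out.LocCond (Out.incl F) ρ N₀)
    (h : FiniteDimensional (ZMod p) (ResSelmer (old 𝓛))) :
    FiniteDimensional (ZMod p) (Out.ResSelmer 𝓛) := h

theorem good (𝓛 : Out.LocCond (Out.incl F) ρ N₀) (H : Subgroup (absGal F)) :
    Out.Good 𝓛 H ↔ Good (old 𝓛) H := Iff.rfl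

end Pool.Agent.Y803.SEL.Bridge
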