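import Pool.Agent.Y803.SEL.Nil

/-! Selmer groups in an abstract setting, and the step from a subgroup to a normal subgroup of
index `p`. -/

set_option autoImplicit false
set_option linter.all false

namespace Pool.Agent.Y803.SEL

open Module
open scoped Classical

/-- abstract data -/
structure Dat (p : ℕ) [Fact p.Prime] (G M ι : Type) [Group G] [TopologicalSpace G]
    [AddCommGroup M] [Module (ZMod p) M] [TopologicalSpace M] [MulAction G ι] where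
  r : G →* Module.End (ZMod p) M
  I : ι → Subgroup G
  D : ι → Subgroup G
  U : Set ι
  S : Set ι
  Λ : ι → Submodule (ZMod p) (G → M)
  hI : ∀ i, ∀ φ ∈ D i, ∀ τ ∈ I i, φ * τ * φ⁻¹ ∈ I i
  hIg : ∀ (g : G) (i : ι) (τ : G), τ ∈ I i → g * τ * g⁻¹ ∈ I (g • i)
  hDg : ∀ (g : G) (i : ι) (τ : G), τ ∈ D i → g * τ * g⁻¹ ∈ D (g • i)
  hU : ∀ g : G, ∀ i ∈ U, g • i ∈ U
  hS : ∀ g : G, ∀ i ∈ S, g • i ∈ S
  hr : ∀ i ∈ U, ∀ τ ∈ I i, r τ = 1
  hΛg : ∀ i ∈ S, ∀ g : G, ∀ c ∈ Λ i, (fun τ : G => r g (c (g⁻¹ * τ * g))) ∈ Λ (g • i)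
  hΛc : ∀ i ∈ S, ∀ x : M, (fun τ : G => r τ x - x) ∈ Λ i
  hcont : ∀ x : M, Continuous fun g => r g x

section

variable {p : ℕ} [Fact p.Prime] {G M ι : Type} [Group G] [TopologicalSpace G]
  [IsTopologicalGroup G] [AddCommGroup M] [Module (ZMod p) M] [TopologicalSpace M]
  [DiscreteTopology M] [MulAction G ι] (𝒟 : Dat p G M ι)

/-- the cocycles on `H`, extended by zero -/
def Dat.Z (H : Subgroup G) : Submodule (ZMod p) (G → M) where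
  carrier := {f | Continuous f ∧ (∀ g, g ∉ H → f g = 0) ∧
    (∀ g ∈ H, ∀ h ∈ H, f (g * h) = f g + 𝒟.r g (f h)) ∧
    (∀ i ∈ 𝒟.U, ∀ τ ∈ 𝒟.I i, τ ∈ H → f τ = 0) ∧
    ∀ i ∈ 𝒟.S, ∃ c ∈ 𝒟.Λ i, ∀ φ ∈ 𝒟.D i, φ ∈ H → c φ = f φ}
  add_mem' := by
    rintro a b ⟨ha1, ha2, ha3, ha4, ha5⟩ ⟨hb1, hb2, hb3, hb4, hb5⟩
    refine ⟨(continuous_of_discreteTopology (f := fun x : M × M => x.1 + x.2)).comp (ha1.prodMk hb1), fun g hg => ?_, fun g hg h hh => ?_, fun i hi τ hτ hτH => ?_, fun i hi => ?_⟩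
    · rw [Pi.add_apply, ha2 g hg, hb2 g hg, add_zero]
    · simp only [Pi.add_apply, ha3 g hg h hh, hb3 g hg h hh, map_add]
      abel
    · rw [Pi.add_apply, ha4 i hi τ hτ hτH, hb4 i hi τ hτ hτH, add_zero]
    · obtain ⟨c, hc, hc'⟩ := ha5 i hi
      obtain ⟨d, hd, hd'⟩ := hb5 i hi
      exact ⟨c + d, (𝒟.Λ i).add_mem hc hd, fun φ hφ hφH => by
        rw [Pi.add_apply, Pi.add_apply, hc' φ hφ hφH, hd' φ hφ hφH]⟩
  zero_mem' := by
    refine ⟨continuous_const, fun g hg => rfl, fun g hg h hh => ?_, fun i hi τ hτ hτH => rfl,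
      fun i hi => ⟨0, (𝒟.Λ i).zero_mem, fun φ hφ hφH => rfl⟩⟩
    simp
  smul_mem' := by
    rintro s a ⟨ha1, ha2, ha3, ha4, ha5⟩
    refine ⟨(continuous_of_discreteTopology (f := fun x : M => s • x)).comp ha1, fun g hg => ?_, fun g hg h hh => ?_, fun i hi τ hτ hτH => ?_,
      fun i hi => ?_⟩
    · rw [Pi.smul_apply, ha2 g hg, smul_zero]
    · simp only [Pi.smul_apply, ha3 g hg h hh, smul_add, map_smul]
    · rw [Pi.smul_apply, ha4 i hi τ hτ hτH, smul_zero]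
    · obtain ⟨c, hc, hc'⟩ := ha5 i hi
      exact ⟨s • c, (𝒟.Λ i).smul_mem s hc, fun φ hφ hφH => by
        rw [Pi.smul_apply, Pi.smul_apply, hc' φ hφ hφH]⟩

/-- the coboundaries on `H`, extended by zero -/
def Dat.B (H : Subgroup G) : Submodule (ZMod p) (G → M) where
  carrier := {f | ∃ x : M, (∀ g ∈ H, f g = 𝒟.r g x - x) ∧ ∀ g, g ∉ H → f g = 0}
  add_mem' := by
    rintro a b ⟨x, hx, hx'⟩ ⟨y, hy, hy'⟩
    refine ⟨x + y, fun g hg => ?_, fun g hg => ?_⟩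
    · rw [Pi.add_apply, hx g hg, hy g hg, map_add]
      abel
    · rw [Pi.add_apply, hx' g hg, hy' g hg, add_zero]
  zero_mem' := ⟨0, fun g hg => by simp, fun g hg => rfl⟩
  smul_mem' := by
    rintro s a ⟨x, hx, hx'⟩
    refine ⟨s • x, fun g hg => ?_, fun g hg => ?_⟩
    · rw [Pi.smul_apply, hx g hg, map_smul, smul_sub]
    · rw [Pi.smul_apply, hx' g hg, smul_zero]

/-- the Selmer group -/
abbrev Dat.W (H : Subgroup G) : Type := 𝒟.Z H ⧸ (𝒟.B H).submoduleOf (𝒟.Z H)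

omit [IsTopologicalGroup G] in
theorem cocycle_one {H : Subgroup G} {f : G → M} (hf : f ∈ 𝒟.Z H) : f 1 = 0 := by
  have h := hf.2.2.1 1 H.one_mem 1 H.one_mem
  rw [mul_one, map_one] at h
  have h2 : (1 : Module.End (ZMod p) M) (f 1) = f 1 := rfl
  rw [h2] at h
  exact left_eq_add.1 h

omit [IsTopologicalGroup G] in
theorem cocycle_inv {H : Subgroup G} {f : G → M} (hf : f ∈ 𝒟.Z H) {g : G} (hg : g ∈ H) :
    f g + 𝒟.r g (f g⁻¹) = 0 := by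
  have h := hf.2.2.1 g hg g⁻¹ (H.inv_mem hg)
  rw [mul_inv_cancel, cocycle_one 𝒟 hf] at h
  exact h.symm

/-- conjugation by `σ` on functions -/
def Dat.A (σ : G) : (G → M) →ₗ[ZMod p] (G → M) where
  toFun f := fun τ => 𝒟.r σ (f (σ⁻¹ * τ * σ))
  map_add' f g := by
    funext τ
    simp
  map_smul' s f := by
    funext τ
    simp

omit [IsTopologicalGroup G] [DiscreteTopology M] in
theorem A_apply (σ : G) (f : G → M) (τ : G) : 𝒟.A σ f τ = 𝒟.r σ (f (σ⁻¹ * τ * σ)) := rfl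

omit [IsTopologicalGroup G] [DiscreteTopology M] in
theorem A_mul (σ τ : G) (f : G → M) : 𝒟.A (σ * τ) f = 𝒟.A σ (𝒟.A τ f) := by
  funext x
  rw [A_apply, A_apply, A_apply, map_mul]
  have : (σ * τ)⁻¹ * x * (σ * τ) = τ⁻¹ * (σ⁻¹ * x * σ) * τ := by group
  rw [this]
  rfl

omit [IsTopologicalGroup G] [DiscreteTopology M] in
theorem A_pow (σ : G) (k : ℕ) (f : G → M) : 𝒟.A (σ ^ k) f = (𝒟.A σ ^ k) f := by
  induction k with
  | zero =>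
    rw [pow_zero, pow_zero]
    funext x
    rw [A_apply, map_one]
    simp
  | succ k ih =>
    rw [pow_succ', A_mul, ih, pow_succ']
    rfl

theorem A_mem_Z {N : Subgroup G} {σ : G} (hσ : ∀ τ, σ⁻¹ * τ * σ ∈ N ↔ τ ∈ N) {f : G → M}
    (hf : f ∈ 𝒟.Z N) : 𝒟.A σ f ∈ 𝒟.Z N := by
  obtain ⟨h1, h2, h3, h4, h5⟩ := hf
  refine ⟨?_, fun g hg => ?_, fun g hg h hh => ?_, fun i hi τ hτ hτN => ?_, fun i hi => ?_⟩
  · have hc : Continuous (fun x : M => 𝒟.r σ x) := continuous_of_discreteTopology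
    exact hc.comp (h1.comp (by fun_prop))
  · rw [A_apply, h2 _ (fun h => hg ((hσ g).1 h)), map_zero]
  · rw [A_apply, A_apply, A_apply]
    have e : σ⁻¹ * (g * h) * σ = (σ⁻¹ * g * σ) * (σ⁻¹ * h * σ) := by group
    rw [e, h3 _ ((hσ g).2 hg) _ ((hσ h).2 hh), map_add]
    congr 1
    have e2 : 𝒟.r σ (𝒟.r (σ⁻¹ * g * σ) (f (σ⁻¹ * h * σ))) =
        𝒟.r (σ * (σ⁻¹ * g * σ)) (f (σ⁻¹ * h * σ)) := by
      rw [map_mul (𝒟.r) σ]
      rfl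
    rw [e2]
    have e3 : σ * (σ⁻¹ * g * σ) = g * σ := by group
    rw [e3, map_mul]
    rfl
  · rw [A_apply]
    have hU := 𝒟.hU σ⁻¹ i hi
    have hI := 𝒟.hIg σ⁻¹ i τ hτ
    rw [inv_inv] at hI
    rw [h4 _ hU _ hI ((hσ τ).2 hτN), map_zero]
  · have hS := 𝒟.hS σ⁻¹ i hi
    obtain ⟨c, hc, hc'⟩ := h5 _ hS
    refine ⟨𝒟.A σ c, ?_, fun φ hφ hφN => ?_⟩
    · have h := 𝒟.hΛg _ hS σ c hc
      rw [smul_inv_smul] at h
      exact h
    · rw [A_apply, A_apply]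
      have hD := 𝒟.hDg σ⁻¹ i φ hφ
      rw [inv_inv] at hD
      rw [hc' _ hD ((hσ φ).2 hφN)]

omit [IsTopologicalGroup G] [DiscreteTopology M] in
theorem A_mem_B {N : Subgroup G} {σ : G} (hσ : ∀ τ, σ⁻¹ * τ * σ ∈ N ↔ τ ∈ N) {f : G → M}
    (hf : f ∈ 𝒟.B N) : 𝒟.A σ f ∈ 𝒟.B N := by
  obtain ⟨x, hx, hx'⟩ := hf
  refine ⟨𝒟.r σ x, fun g hg => ?_, fun g hg => ?_⟩
  · rw [A_apply, hx _ ((hσ g).2 hg), map_sub]
    congr 1
    have e2 : 𝒟.r σ (𝒟.r (σ⁻¹ * g * σ) x) = 𝒟.r (σ * (σ⁻¹ * g * σ)) x := by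
      rw [map_mul (𝒟.r) σ]
      rfl
    rw [e2]
    have e3 : σ * (σ⁻¹ * g * σ) = g * σ := by group
    rw [e3, map_mul]
    rfl
  · rw [A_apply, hx' _ (fun h => hg ((hσ g).1 h)), map_zero]

/-- elements of `N` act trivially on cohomology -/
theorem A_inner {N : Subgroup G} {f : G → M} (hf : f ∈ 𝒟.Z N) {ν : G} (hν : ν ∈ N) :
    ∀ τ ∈ N, 𝒟.A ν f τ = f τ + (𝒟.r τ (f ν) - f ν) := by
  intro τ hτ
  have h3 := hf.2.2.1
  rw [A_apply, mul_assoc, h3 _ (N.inv_mem hν) _ (N.mul_mem hτ hν), h3 _ hτ _ hν, map_add, map_add]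
  have e1 : 𝒟.r ν (f ν⁻¹) = - f ν := by
    have := cocycle_inv 𝒟 hf hν
    exact eq_neg_of_add_eq_zero_right this
  have e2 : ∀ y : M, 𝒟.r ν (𝒟.r ν⁻¹ y) = y := by
    intro y
    have : 𝒟.r ν (𝒟.r ν⁻¹ y) = 𝒟.r (ν * ν⁻¹) y := by
      rw [map_mul]
      rfl
    rw [this, mul_inv_cancel, map_one]
    rfl
  rw [map_add, e1, e2, e2]
  abel

end

end Pool.Agent.Y803.SEL
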