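import Pool.Agent.Y800.Defs

/-! Selmer groups of `p`-adic Galois representations over number fields: definitions. -/

set_option autoImplicit false

namespace Pool.Agent.Y803.SEL

open Pool.Agent.Y800
open scoped Pointwise

variable {p : ℕ} [Fact p.Prime] {n : ℕ}

/-- The action of an invertible matrix over `ℤ_p` on `V = ℚ_p ^ n`. -/
noncomputable def actV (A : GL (Fin n) ℤ_[p]) (v : Fin n → ℚ_[p]) : Fin n → ℚ_[p] :=
  ((A : Matrix (Fin n) (Fin n) ℤ_[p]).map (algebraMap ℤ_[p] ℚ_[p])).mulVec v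

/-- The action of an invertible matrix over `ℤ_p` on `M = 𝔽_p ^ n`. -/
noncomputable def actM (A : GL (Fin n) ℤ_[p]) (x : Fin n → ZMod p) : Fin n → ZMod p :=
  ((A : Matrix (Fin n) (Fin n) ℤ_[p]).map (PadicInt.toZMod (p := p))).mulVec x

/-- `φ` lies in the decomposition group at the maximal ideal `P` of the ring of all algebraic
integers. -/
def InDecomp (P : Ideal ZBar) (φ : GQ) : Prop := ∀ x : ZBar, φ • x ∈ P ↔ x ∈ P

section sel

variable {Γ : Subgroup GQ} (ρ : Γ →* GL (Fin n) ℤ_[p]) (N₀ : ℕ)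

/-- A family of local conditions for `V`: a `Γ`-stable set `S` of maximal ideals `P` dividing `N₀`
and, for `P` in `S`, a `ℚ_p`-subspace `L P` of the functions on the decomposition group of `P` in `Γ`
(written as functions on `Γ`, of which only the restriction to the decomposition group matters),
which contains the coboundaries, compatibly with the action of `Γ`. -/
structure LocalConditions where
  /-- the places at which a condition is imposed -/
  S : Set (Ideal ZBar)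
  isMaximal : ∀ P ∈ S, P.IsMaximal
  mem : ∀ P ∈ S, (N₀ : ZBar) ∈ P
  /-- the local condition at `P` -/
  L : Ideal ZBar → Submodule ℚ_[p] (Γ → Fin n → ℚ_[p])
  locality : ∀ P ∈ S, ∀ c c' : Γ → Fin n → ℚ_[p],
    (∀ φ : Γ, InDecomp P (φ : GQ) → c φ = c' φ) → c ∈ L P → c' ∈ L P
  coboundary : ∀ P ∈ S, ∀ v : Fin n → ℚ_[p], (fun τ : Γ => actV (ρ τ) v - v) ∈ L P
  stable : ∀ P ∈ S, ∀ g : Γ, (g : GQ) • P ∈ S
  equivariant : ∀ P ∈ S, ∀ g : Γ, ∀ c ∈ L P,
    (fun τ : Γ => actV (ρ g) (c (g⁻¹ * τ * g))) ∈ L ((g : GQ) • P)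

variable {ρ} {N₀}

/-- The continuous crossed homomorphisms `H → V` which are coboundaries on the inertia groups at all
maximal ideals not dividing `N₀` and satisfy the local conditions at the places of `S`. -/
def selmerCocycles (𝓛 : LocalConditions ρ N₀) (H : Subgroup Γ) :
    Submodule ℚ_[p] (H → Fin n → ℚ_[p]) where
  carrier := {c | Continuous c ∧ (∀ g h : H, c (g * h) = c g + actV (ρ g) (c h)) ∧
    (∀ P : Ideal ZBar, P.IsMaximal → (N₀ : ZBar) ∉ P → ∃ v : Fin n → ℚ_[p],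
      ∀ τ : H, InInertia P ((τ : Γ) : GQ) → c τ = actV (ρ τ) v - v) ∧
    ∀ P ∈ 𝓛.S, ∃ c' ∈ 𝓛.L P, ∀ τ : H, InDecomp P ((τ : Γ) : GQ) → c' τ = c τ}
  add_mem' := by
    rintro a b ⟨ha1, ha2, ha3, ha4⟩ ⟨hb1, hb2, hb3, hb4⟩
    refine ⟨ha1.add hb1, fun g h => ?_, fun P hP hN => ?_, fun P hP => ?_⟩
    · simp only [Pi.add_apply, ha2 g h, hb2 g h, actV, Matrix.mulVec_add]
      abel
    · obtain ⟨v, hv⟩ := ha3 P hP hN
      obtain ⟨w, hw⟩ := hb3 P hP hN
      refine ⟨v + w, fun τ hτ => ?_⟩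
      simp only [Pi.add_apply, hv τ hτ, hw τ hτ, actV, Matrix.mulVec_add]
      abel
    · obtain ⟨c, hc, hc'⟩ := ha4 P hP
      obtain ⟨d, hd, hd'⟩ := hb4 P hP
      exact ⟨c + d, (𝓛.L P).add_mem hc hd, fun τ hτ => by
        rw [Pi.add_apply, Pi.add_apply, hc' τ hτ, hd' τ hτ]⟩
  zero_mem' := by
    refine ⟨continuous_const, fun g h => ?_, fun P hP hN => ⟨0, fun τ hτ => ?_⟩,
      fun P hP => ⟨0, (𝓛.L P).zero_mem, fun τ hτ => rfl⟩⟩
    · simp [actV]
    · simp [actV]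
  smul_mem' := by
    rintro r a ⟨ha1, ha2, ha3, ha4⟩
    refine ⟨ha1.const_smul r, fun g h => ?_, fun P hP hN => ?_, fun P hP => ?_⟩
    · simp only [Pi.smul_apply, ha2 g h, actV, Matrix.mulVec_smul, smul_add]
    · obtain ⟨v, hv⟩ := ha3 P hP hN
      refine ⟨r • v, fun τ hτ => ?_⟩
      simp only [Pi.smul_apply, hv τ hτ, actV, Matrix.mulVec_smul, smul_sub]
    · obtain ⟨c, hc, hc'⟩ := ha4 P hP
      exact ⟨r • c, (𝓛.L P).smul_mem r hc, fun τ hτ => by
        rw [Pi.smul_apply, Pi.smul_apply, hc' τ hτ]⟩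

/-- The coboundaries `g ↦ g v - v` on `H`. -/
def coboundaries (ρ : Γ →* GL (Fin n) ℤ_[p]) (H : Subgroup Γ) :
    Submodule ℚ_[p] (H → Fin n → ℚ_[p]) where
  carrier := {c | ∃ v : Fin n → ℚ_[p], ∀ τ : H, c τ = actV (ρ τ) v - v}
  add_mem' := by
    rintro a b ⟨v, hv⟩ ⟨w, hw⟩
    refine ⟨v + w, fun τ => ?_⟩
    simp only [Pi.add_apply, hv τ, hw τ, actV, Matrix.mulVec_add]
    abel
  zero_mem' := ⟨0, fun τ => by simp [actV]⟩
  smul_mem' := by
    rintro r a ⟨v, hv⟩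
    refine ⟨r • v, fun τ => ?_⟩
    simp only [Pi.smul_apply, hv τ, actV, Matrix.mulVec_smul, smul_sub]

/-- The Selmer group of `V` over the field which belongs to `H`. -/
abbrev Selmer (𝓛 : LocalConditions ρ N₀) (H : Subgroup Γ) : Type :=
  selmerCocycles 𝓛 H ⧸ (coboundaries ρ H).submoduleOf (selmerCocycles 𝓛 H)

/-- The continuous crossed homomorphisms `Γ → M` which are coboundaries on the inertia groups at all
maximal ideals not dividing `N₀` and, on the decomposition groups at the places of `S`, reductions of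
integral elements of the local conditions of `V`. -/
def resCocycles (𝓛 : LocalConditions ρ N₀) : Submodule (ZMod p) (Γ → Fin n → ZMod p) where
  carrier := {c | Continuous c ∧ (∀ g h : Γ, c (g * h) = c g + actM (ρ g) (c h)) ∧
    (∀ P : Ideal ZBar, P.IsMaximal → (N₀ : ZBar) ∉ P → ∃ x : Fin n → ZMod p,
      ∀ τ : Γ, InInertia P (τ : GQ) → c τ = actM (ρ τ) x - x) ∧
    ∀ P ∈ 𝓛.S, ∃ t : Γ → Fin n → ℤ_[p], (fun τ i => ((t τ i : ℤ_[p]) : ℚ_[p])) ∈ 𝓛.L P ∧
      ∀ φ : Γ, InDecomp P (φ : GQ) → ∀ i, PadicInt.toZMod (t φ i) = c φ i}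
  add_mem' := by
    rintro a b ⟨ha1, ha2, ha3, ha4⟩ ⟨hb1, hb2, hb3, hb4⟩
    refine ⟨ha1.add hb1, fun g h => ?_, fun P hP hN => ?_, fun P hP => ?_⟩
    · simp only [Pi.add_apply, ha2 g h, hb2 g h, actM, Matrix.mulVec_add]
      abel
    · obtain ⟨v, hv⟩ := ha3 P hP hN
      obtain ⟨w, hw⟩ := hb3 P hP hN
      refine ⟨v + w, fun τ hτ => ?_⟩
      simp only [Pi.add_apply, hv τ hτ, hw τ hτ, actM, Matrix.mulVec_add]
      abel
    · obtain ⟨c, hc, hc'⟩ := ha4 P hP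
      obtain ⟨d, hd, hd'⟩ := hb4 P hP
      refine ⟨c + d, ?_, fun τ hτ i => ?_⟩
      · have h := (𝓛.L P).add_mem hc hd
        refine (congrArg (· ∈ 𝓛.L P) ?_).mp h
        funext τ i
        simp
      · simp only [Pi.add_apply, map_add, hc' τ hτ i, hd' τ hτ i]
  zero_mem' := by
    refine ⟨continuous_const, fun g h => ?_, fun P hP hN => ⟨0, fun τ hτ => ?_⟩,
      fun P hP => ⟨0, ?_, fun τ hτ i => ?_⟩⟩
    · simp [actM]
    · simp [actM]
    · refine (congrArg (· ∈ 𝓛.L P) ?_).mp (𝓛.L P).zero_mem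
      funext τ i
      simp
    · simp
  smul_mem' := by
    rintro r a ⟨ha1, ha2, ha3, ha4⟩
    refine ⟨ha1.const_smul r, fun g h => ?_, fun P hP hN => ?_, fun P hP => ?_⟩
    · simp only [Pi.smul_apply, ha2 g h, actM, Matrix.mulVec_smul, smul_add]
    · obtain ⟨v, hv⟩ := ha3 P hP hN
      refine ⟨r • v, fun τ hτ => ?_⟩
      simp only [Pi.smul_apply, hv τ hτ, actM, Matrix.mulVec_smul, smul_sub]
    · obtain ⟨c, hc, hc'⟩ := ha4 P hP
      refine ⟨fun τ i => ((r.val : ℕ) : ℤ_[p]) * c τ i, ?_, fun τ hτ i => ?_⟩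
      · have h := (𝓛.L P).smul_mem ((r.val : ℕ) : ℚ_[p]) hc
        refine (congrArg (· ∈ 𝓛.L P) ?_).mp h
        funext τ i
        show ((r.val : ℕ) : ℚ_[p]) * ((c τ i : ℤ_[p]) : ℚ_[p]) = ((((r.val : ℕ) : ℤ_[p]) * c τ i : ℤ_[p]) : ℚ_[p])
        rw [PadicInt.coe_mul, PadicInt.coe_natCast]
      · show PadicInt.toZMod (((r.val : ℕ) : ℤ_[p]) * c τ i) = r * a τ i
        rw [map_mul, map_natCast, hc' τ hτ i, ZMod.natCast_zmod_val]

/-- The coboundaries `g ↦ g x - x` with values in `M`. -/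
def resCoboundaries (ρ : Γ →* GL (Fin n) ℤ_[p]) : Submodule (ZMod p) (Γ → Fin n → ZMod p) where
  carrier := {c | ∃ x : Fin n → ZMod p, ∀ τ : Γ, c τ = actM (ρ τ) x - x}
  add_mem' := by
    rintro a b ⟨v, hv⟩ ⟨w, hw⟩
    refine ⟨v + w, fun τ => ?_⟩
    simp only [Pi.add_apply, hv τ, hw τ, actM, Matrix.mulVec_add]
    abel
  zero_mem' := ⟨0, fun τ => by simp [actM]⟩
  smul_mem' := by
    rintro r a ⟨v, hv⟩
    refine ⟨r • v, fun τ => ?_⟩
    simp only [Pi.smul_apply, hv τ, actM, Matrix.mulVec_smul, smul_sub]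

/-- The residual Selmer group: classes in `H¹(Γ, M)`. -/
abbrev ResSelmer (𝓛 : LocalConditions ρ N₀) : Type :=
  resCocycles 𝓛 ⧸ (resCoboundaries ρ).submoduleOf (resCocycles 𝓛)

/-- The extension which belongs to the subgroup `H` of `Γ` is good: it is completely split at the
places of `S`, and at each `P` not dividing `N₀` it is unramified or `M` has no nonzero vector fixed
by the decomposition group of `P` in `Γ`. -/
def Good (𝓛 : LocalConditions ρ N₀) (H : Subgroup Γ) : Prop :=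
  (∀ P ∈ 𝓛.S, ∀ φ : Γ, InDecomp P (φ : GQ) → φ ∈ H) ∧
  ∀ P : Ideal ZBar, P.IsMaximal → (N₀ : ZBar) ∉ P →
    (∀ τ : Γ, InInertia P (τ : GQ) → τ ∈ H) ∨
    ∀ x : Fin n → ZMod p, (∀ φ : Γ, InDecomp P (φ : GQ) → actM (ρ φ) x = x) → x = 0

end sel

end Pool.Agent.Y803.SEL
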