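import Pool.Agent.Y803.SEL.Core

/-! Extension of an invariant class from a normal subgroup of index `p`. -/

set_option autoImplicit false
set_option linter.all false

namespace Pool.Agent.Y803.SEL

open Module
open scoped Classical

variable {p : ℕ} [Fact p.Prime] {G M ι : Type} [Group G] [TopologicalSpace G]
  [IsTopologicalGroup G] [AddCommGroup M] [Module (ZMod p) M] [TopologicalSpace M]
  [DiscreteTopology M] [MulAction G ι] (𝒟 : Dat p G M ι)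

omit [IsTopologicalGroup G] [DiscreteTopology M] in
theorem r_mul (g h : G) (x : M) : 𝒟.r (g * h) x = 𝒟.r g (𝒟.r h x) := by
  rw [map_mul]
  rfl

omit [IsTopologicalGroup G] [DiscreteTopology M] in
theorem r_one (x : M) : 𝒟.r 1 x = x := by
  rw [map_one]
  rfl

omit [IsTopologicalGroup G] [DiscreteTopology M] in
theorem r_inv (g : G) (x : M) : 𝒟.r g (𝒟.r g⁻¹ x) = x := by
  rw [← r_mul, mul_inv_cancel, r_one]

omit [IsTopologicalGroup G] [DiscreteTopology M] in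
theorem r_inv' (g : G) (x : M) : 𝒟.r g⁻¹ (𝒟.r g x) = x := by
  rw [← r_mul, inv_mul_cancel, r_one]

/-- the value at `g` of the extended cocycle -/
def Ex (N : Subgroup G) (f : G → M) (g : G) (x : M) : Prop :=
  ∀ τ ∈ N, 𝒟.A g f τ = f τ + (𝒟.r τ x - x)

omit [IsTopologicalGroup G] [DiscreteTopology M] in
theorem Ex_mul {N : Subgroup G} {f : G → M} {g h : G} (hg : ∀ τ, g⁻¹ * τ * g ∈ N ↔ τ ∈ N)
    {x y : M} (hx : Ex 𝒟 N f g x) (hy : Ex 𝒟 N f h y) : Ex 𝒟 N f (g * h) (x + 𝒟.r g y) := by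
  intro τ hτ
  rw [A_mul, A_apply, hy _ ((hg τ).2 hτ), map_add, ← A_apply, hx τ hτ, map_sub, map_add]
  have e : 𝒟.r g (𝒟.r (g⁻¹ * τ * g) y) = 𝒟.r τ (𝒟.r g y) := by
    rw [← r_mul, ← r_mul]
    congr 2
    group
  rw [e]
  abel

omit [IsTopologicalGroup G] [DiscreteTopology M] in
theorem Ex_unique {N : Subgroup G} (hMN : ∀ x : M, (∀ τ ∈ N, 𝒟.r τ x = x) → x = 0) {f : G → M}
    {g : G} {x y : M} (hx : Ex 𝒟 N f g x) (hy : Ex 𝒟 N f g y) : x = y := by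
  have h : x - y = 0 := by
    apply hMN
    intro τ hτ
    have h1 := hx τ hτ
    rw [hy τ hτ] at h1
    have h2 := add_left_cancel h1
    rw [map_sub]
    have : 𝒟.r τ x - 𝒟.r τ y - (x - y) = (𝒟.r τ x - x) - (𝒟.r τ y - y) := by abel
    have h3 : 𝒟.r τ x - 𝒟.r τ y - (x - y) = 0 := by
      rw [this, h2, sub_self]
    exact sub_eq_zero.1 h3
  exact sub_eq_zero.1 h

omit [IsTopologicalGroup G] [DiscreteTopology M] in
theorem Ex_one {N : Subgroup G} {f : G → M} : Ex 𝒟 N f 1 0 := by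
  intro τ hτ
  rw [A_apply, r_one]
  simp

omit [IsTopologicalGroup G] [DiscreteTopology M] in
theorem Ex_inv {N : Subgroup G} {f : G → M} {g : G} (hg : ∀ τ, g⁻¹ * τ * g ∈ N ↔ τ ∈ N) {x : M}
    (hx : Ex 𝒟 N f g x) : Ex 𝒟 N f g⁻¹ (- 𝒟.r g⁻¹ x) := by
  intro τ hτ
  have hτ' : g * τ * g⁻¹ ∈ N := by
    rw [← hg]
    convert hτ using 1
    group
  have h := hx _ hτ'
  rw [A_apply] at h
  have e1 : g⁻¹ * (g * τ * g⁻¹) * g = τ := by group
  rw [e1] at h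
  have h2 := congrArg (fun z => 𝒟.r g⁻¹ z) h
  simp only [map_add, map_sub] at h2
  rw [r_inv'] at h2
  rw [A_apply, inv_inv, h2, map_neg]
  have e2 : 𝒟.r g⁻¹ (𝒟.r (g * τ * g⁻¹) x) = 𝒟.r τ (𝒟.r g⁻¹ x) := by
    rw [← r_mul, ← r_mul]
    congr 2
    group
  rw [e2]
  abel

/-- extension of an invariant class -/
theorem extend {H N : Subgroup G} (hNH : N ≤ H) (hprime : (N.relIndex H).Prime)
    (hnorm : ∀ g ∈ H, ∀ h ∈ N, g * h * g⁻¹ ∈ N) (hcomm : ∀ g ∈ H, ∀ h ∈ H, g * h * g⁻¹ * h⁻¹ ∈ N)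
    (hNo : IsOpen (N : Set G))
    (hMN : ∀ x : M, (∀ τ ∈ N, 𝒟.r τ x = x) → x = 0) (hsplit : ∀ i ∈ 𝒟.S, 𝒟.D i ≤ N)
    (hgood : ∀ i ∈ 𝒟.U, (∀ τ ∈ 𝒟.I i, τ ∈ H → τ ∈ N) ∨
      ∀ x : M, (∀ φ ∈ 𝒟.D i, φ ∈ H → 𝒟.r φ x = x) → x = 0)
    {σ : G} (hσ : σ ∈ H) (hσN : σ ∉ N) {f : G → M} (hf : f ∈ 𝒟.Z N) {x₀ : M}
    (hx₀ : Ex 𝒟 N f σ x₀) : ∃ F ∈ 𝒟.Z H, ∀ τ ∈ N, F τ = f τ := by
  have hconj : ∀ g ∈ H, ∀ τ, g⁻¹ * τ * g ∈ N ↔ τ ∈ N := by
    intro g hg τ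
    constructor
    · intro h
      have := hnorm g hg _ h
      convert this using 1
      group
    · intro h
      have := hnorm g⁻¹ (H.inv_mem hg) _ h
      rwa [inv_inv] at this
  -- the subgroup of the elements with a value
  let H₁ : Subgroup G :=
    { carrier := {g | g ∈ H ∧ ∃ x, Ex 𝒟 N f g x}
      mul_mem' := by
        rintro a b ⟨ha, x, hx⟩ ⟨hb, y, hy⟩
        exact ⟨H.mul_mem ha hb, _, Ex_mul 𝒟 (hconj a ha) hx hy⟩
      one_mem' := ⟨H.one_mem, 0, Ex_one 𝒟⟩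
      inv_mem' := by
        rintro a ⟨ha, x, hx⟩
        exact ⟨H.inv_mem ha, _, Ex_inv 𝒟 (hconj a ha) hx⟩ }
  have hH₁ : H₁ ≤ H := fun g hg => hg.1
  have hN₁ : N ≤ H₁ := fun ν hν => ⟨hNH hν, f ν, fun τ hτ => A_inner 𝒟 hf hν τ hτ⟩
  have hHH : H ≤ H₁ := by
    have h1 := Subgroup.relIndex_mul_relIndex N H₁ H hN₁ hH₁
    have h2 : N.relIndex H₁ ≠ 1 := by
      intro h
      have := Subgroup.relIndex_eq_one.1 h
      exact hσN (this ⟨hσ, x₀, hx₀⟩)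
    have h3 : H₁.relIndex H = 1 := by
      rcases (Nat.dvd_prime hprime).1 (Dvd.intro _ h1) with h | h
      · exact absurd h h2
      · rw [h] at h1
        have hpos := hprime.pos
        exact Nat.eq_of_mul_eq_mul_left hpos (by rw [h1, mul_one])
    exact Subgroup.relIndex_eq_one.1 h3
  -- the extended function
  let F : G → M := fun g => if h : g ∈ H then (hHH h).2.choose else 0
  have hF : ∀ g ∈ H, Ex 𝒟 N f g (F g) := by
    intro g hg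
    have : F g = (hHH hg).2.choose := dif_pos hg
    rw [this]
    exact (hHH hg).2.choose_spec
  have hF0 : ∀ g, g ∉ H → F g = 0 := fun g hg => dif_neg hg
  have hFN : ∀ τ ∈ N, F τ = f τ := by
    intro τ hτ
    exact Ex_unique 𝒟 hMN (hF τ (hNH hτ)) (fun τ' hτ' => A_inner 𝒟 hf hτ τ' hτ')
  have hFm : ∀ g ∈ H, ∀ h ∈ H, F (g * h) = F g + 𝒟.r g (F h) := by
    intro g hg h hh
    exact Ex_unique 𝒟 hMN (hF _ (H.mul_mem hg hh)) (Ex_mul 𝒟 (hconj g hg) (hF g hg) (hF h hh))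
  have hF1 : F 1 = 0 := by
    rw [hFN 1 N.one_mem]
    exact cocycle_one 𝒟 hf
  refine ⟨F, ⟨?_, hF0, hFm, ?_, ?_⟩, hFN⟩
  · -- continuity
    have hHo : IsOpen (H : Set G) := Subgroup.isOpen_mono hNH hNo
    have hloc : IsLocallyConstant F := by
      rw [IsLocallyConstant.iff_exists_open]
      intro g
      by_cases hg : g ∈ H
      · have hV : IsOpen {τ : G | τ ∈ N ∧ f τ = 0} := by
          have h1 : IsOpen (f ⁻¹' {0}) := (isOpen_discrete _).preimage hf.1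
          exact hNo.inter h1
        refine ⟨(fun x => g⁻¹ * x) ⁻¹' {τ : G | τ ∈ N ∧ f τ = 0},
          hV.preimage (continuous_const_mul g⁻¹), ?_, ?_⟩
        · show g⁻¹ * g ∈ N ∧ f (g⁻¹ * g) = 0
          rw [inv_mul_cancel]
          exact ⟨N.one_mem, cocycle_one 𝒟 hf⟩
        · rintro x ⟨hx1, hx2⟩
          have e : x = g * (g⁻¹ * x) := by group
          rw [e, hFm g hg _ (hNH hx1), hFN _ hx1, hx2, map_zero, add_zero]
      · refine ⟨(H : Set G)ᶜ, ?_, hg, ?_⟩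
        · exact (Subgroup.isClosed_of_isOpen H hHo).isOpen_compl
        · intro x hx
          rw [hF0 g hg, hF0 x hx]
    exact hloc.continuous
  · -- inertia
    intro i hi τ hτ hτH
    rcases hgood i hi with h | h
    · rw [hFN τ (h τ hτ hτH)]
      exact hf.2.2.2.1 i hi τ hτ (h τ hτ hτH)
    · apply h
      intro φ hφ hφH
      have hφτ : φ * τ * φ⁻¹ ∈ 𝒟.I i := 𝒟.hI i φ hφ τ hτ
      have hτ1 : ∀ x : M, 𝒟.r τ x = x := fun x => by
        rw [𝒟.hr i hi τ hτ]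
        rfl
      have e1 : F (φ * τ * φ⁻¹) = 𝒟.r φ (F τ) := by
        rw [hFm _ (H.mul_mem hφH hτH) _ (H.inv_mem hφH), hFm _ hφH _ hτH, r_mul, hτ1]
        have e2 : F φ + 𝒟.r φ (F φ⁻¹) = 0 := by
          rw [← hFm _ hφH _ (H.inv_mem hφH), mul_inv_cancel, hF1]
        have e3 : F φ + 𝒟.r φ (F τ) + 𝒟.r φ (F φ⁻¹) = (F φ + 𝒟.r φ (F φ⁻¹)) + 𝒟.r φ (F τ) := by
          abel
        rw [e3, e2, zero_add]
      have hν : φ * τ * φ⁻¹ * τ⁻¹ ∈ N := hcomm φ hφH τ hτH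
      have hνI : φ * τ * φ⁻¹ * τ⁻¹ ∈ 𝒟.I i := (𝒟.I i).mul_mem hφτ ((𝒟.I i).inv_mem hτ)
      have e4 : F (φ * τ * φ⁻¹) = F τ := by
        have e5 : φ * τ * φ⁻¹ = (φ * τ * φ⁻¹ * τ⁻¹) * τ := by group
        have e6 : F (φ * τ * φ⁻¹ * τ⁻¹) = 0 := by
          rw [hFN _ hν]
          exact hf.2.2.2.1 i hi _ hνI hν
        have e7 : 𝒟.r (φ * τ * φ⁻¹ * τ⁻¹) (F τ) = F τ := by
          rw [𝒟.hr i hi _ hνI]
          rfl
        rw [e5, hFm _ (hNH hν) _ hτH, e6, e7, zero_add]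
      rw [← e1, e4]
  · -- the local conditions
    intro i hi
    obtain ⟨c, hc, hc'⟩ := hf.2.2.2.2 i hi
    refine ⟨c, hc, fun φ hφ hφH => ?_⟩
    have hφN := hsplit i hi hφ
    rw [hc' φ hφ hφN, hFN φ hφN]

end Pool.Agent.Y803.SEL
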