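import Pool.Agent.Y803.SEL.Glue4

/-! Number fields. -/

set_option autoImplicit false
set_option linter.all false

namespace Pool.Agent.Y803.SEL

open Module Pool.Agent.Y800
open scoped Classical Pointwise

/-- The algebraic extensions of `k` inside the algebraic closure of `k`. -/
abbrev Ext (k : Type) [Field k] : Type := IntermediateField k (AlgebraicClosure k)

/-- The absolute Galois group of `F`, as a subgroup of the absolute Galois group of `k`. -/
noncomputable abbrev absGal {k : Type} [Field k] (F : Ext k) : Subgroup (AbsGal k) :=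
  F.fixingSubgroup

/-- The absolute Galois group of `K`, as a subgroup of the absolute Galois group of `F`. -/
noncomputable abbrev galoisIn {k : Type} [Field k] (F K : Ext k) : Subgroup (absGal F) :=
  (absGal K).subgroupOf (absGal F)

/-- The degree of `K` over `k`. -/
noncomputable abbrev degree {k : Type} [Field k] (K : Ext k) : ℕ := Module.finrank k K

/-- The field generated by the `f`-th roots of unity. -/
noncomputable abbrev cyclo (k : Type) [Field k] (f : ℕ) : Ext k :=
  IntermediateField.adjoin k {z : AlgebraicClosure k | z ^ f = 1}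

section fields

variable {k : Type} [Field k] [CharZero k] {F K : Ext k}

theorem open_absGal (h : degree K ≠ 0) : IsOpen (absGal K : Set (AbsGal k)) := by
  haveI : FiniteDimensional k K := FiniteDimensional.of_finrank_pos (Nat.pos_of_ne_zero h)
  exact K.fixingSubgroup_isOpen

theorem open_galoisIn (h : degree K ≠ 0) : IsOpen (galoisIn F K : Set (absGal F)) :=
  (open_absGal h).preimage continuous_subtype_val

theorem normal_galoisIn
    (h : ∀ σ : AbsGal k, (∀ x ∈ F, σ x = x) → ∀ x ∈ K, σ x ∈ K) : (galoisIn F K).Normal := by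
  refine ⟨fun g hg σ => ?_⟩
  rw [Subgroup.mem_subgroupOf, IntermediateField.mem_fixingSubgroup_iff] at hg ⊢
  intro x hx
  have h1 : ((σ⁻¹ : absGal F) : AbsGal k) x ∈ K := by
    refine h _ ?_ x hx
    exact (IntermediateField.mem_fixingSubgroup_iff _ _).1 (σ⁻¹).2
  have h2 := hg _ h1
  have h3 : ((σ * g * σ⁻¹ : absGal F) : AbsGal k) x =
      (σ : AbsGal k) ((g : AbsGal k) (((σ⁻¹ : absGal F) : AbsGal k) x)) := rfl
  rw [h3]
  rw [h2]
  have h4 : (σ : AbsGal k) (((σ⁻¹ : absGal F) : AbsGal k) x) = ((σ * σ⁻¹ : absGal F) : AbsGal k) x := rfl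
  rw [h4, mul_inv_cancel]
  rfl

theorem index_galoisIn (hFK : F ≤ K) :
    (galoisIn F K).index * degree F = degree K := by
  unfold degree
  rw [IntermediateField.finrank_eq_fixingSubgroup_index, IntermediateField.finrank_eq_fixingSubgroup_index]
  exact Subgroup.relIndex_mul_index (IntermediateField.fixingSubgroup_antitone hFK)

theorem index_galoisIn_eq (hF : degree F ≠ 0) (hFK : F ≤ K) (m : ℕ)
    (h : degree K = m * degree F) : (galoisIn F K).index = m := by
  have h1 := index_galoisIn hFK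
  rw [h] at h1
  exact Nat.eq_of_mul_eq_mul_right (Nat.pos_of_ne_zero hF) h1

end fields

section cyclo

variable {k : Type} [Field k] [CharZero k] {f : ℕ}

/-- automorphisms commute on roots of unity -/
theorem comm_root (hf : f ≠ 0) (σ τ : AbsGal k) (z : AlgebraicClosure k) (hz : z ^ f = 1) :
    σ (τ z) = τ (σ z) := by
  haveI : CharZero (AlgebraicClosure k) := charZero_of_injective_algebraMap
    (algebraMap k (AlgebraicClosure k)).injective
  haveI : NeZero f := ⟨hf⟩
  haveI : NeZero (f : AlgebraicClosure k) := ⟨Nat.cast_ne_zero.2 hf⟩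
  obtain ⟨ζ, hζ⟩ := HasEnoughRootsOfUnity.exists_primitiveRoot (AlgebraicClosure k) f
  have hpow : ∀ w : AlgebraicClosure k, w ^ f = 1 → ∃ i : ℕ, ζ ^ i = w := by
    intro w hw
    obtain ⟨i, -, hi⟩ := hζ.eq_pow_of_pow_eq_one hw
    exact ⟨i, hi⟩
  have h1 : ∀ g : AbsGal k, ∃ a : ℕ, g ζ = ζ ^ a := by
    intro g
    obtain ⟨a, ha⟩ := hpow (g ζ) (by rw [← map_pow, hζ.pow_eq_one, map_one])
    exact ⟨a, ha.symm⟩
  obtain ⟨a, ha⟩ := h1 σ
  obtain ⟨b, hb⟩ := h1 τ
  obtain ⟨i, rfl⟩ := hpow z hz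
  have h2 : σ (τ ζ) = τ (σ ζ) := by
    rw [hb, ha, map_pow, map_pow, ha, hb, ← pow_mul, ← pow_mul, mul_comm]
  rw [map_pow, map_pow, map_pow, map_pow, h2]

variable {K₀ : Ext k}

theorem mem_of_fix (hK : K₀ ≤ cyclo k f)
    (g : AbsGal k) (hg : ∀ z : AlgebraicClosure k, z ^ f = 1 → g z = z) : g ∈ absGal K₀ := by
  have h1 : g ∈ absGal (cyclo k f) := by
    rw [IntermediateField.mem_fixingSubgroup_iff]
    intro x hx
    induction hx using IntermediateField.adjoin_induction with
    | mem x hx => exact hg x hx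
    | algebraMap x => exact g.commutes x
    | add x y _ _ hx hy => rw [map_add, hx, hy]
    | inv x _ hx => rw [map_inv₀, hx]
    | mul x y _ _ hx hy => rw [map_mul, hx, hy]
  exact IntermediateField.fixingSubgroup_antitone hK h1

theorem normal_cyclo (hf : f ≠ 0) (hK : K₀ ≤ cyclo k f) : (absGal K₀).Normal := by
  refine ⟨fun h hh g => ?_⟩
  have hc : g * h * g⁻¹ * h⁻¹ ∈ absGal K₀ := by
    apply mem_of_fix hK
    intro z hz
    have hw : ((g⁻¹ * h⁻¹ : AbsGal k) z) ^ f = 1 := by
      rw [← map_pow, hz, map_one]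
    have e1 : (g * h * g⁻¹ * h⁻¹ : AbsGal k) z = g (h ((g⁻¹ * h⁻¹ : AbsGal k) z)) := rfl
    have e2 : h (g ((g⁻¹ * h⁻¹ : AbsGal k) z)) = (h * g * (g⁻¹ * h⁻¹) : AbsGal k) z := rfl
    rw [e1, comm_root hf g h _ hw, e2]
    have e3 : (h * g * (g⁻¹ * h⁻¹) : AbsGal k) = 1 := by group
    rw [e3]
    rfl
  have := (absGal K₀).mul_mem hc hh
  rwa [inv_mul_cancel_right] at this

theorem degree_cyclo (hf : f ≠ 0) (hK : K₀ ≤ cyclo k f) : degree K₀ ≠ 0 := by
  have hfin : {z : AlgebraicClosure k | z ^ f = 1}.Finite := by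
    have h1 : {z : AlgebraicClosure k | z ^ f = 1} ⊆
        ((Polynomial.nthRoots f (1 : AlgebraicClosure k)).toFinset : Set (AlgebraicClosure k)) := by
      intro z hz
      rw [Finset.mem_coe, Multiset.mem_toFinset, Polynomial.mem_nthRoots (Nat.pos_of_ne_zero hf)]
      exact hz
    exact (Finset.finite_toSet _).subset h1
  haveI := hfin.to_subtype
  haveI h1 : FiniteDimensional k (cyclo k f) :=
    IntermediateField.finiteDimensional_adjoin (fun x _ => Algebra.IsIntegral.isIntegral x)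
  haveI : FiniteDimensional k K₀ :=
    FiniteDimensional.of_injective (IntermediateField.inclusion hK).toLinearMap
      (IntermediateField.inclusion_injective hK)
  exact Module.finrank_pos.ne'

theorem degree_sup {F : Ext k} (hF : degree F ≠ 0) (hK : degree K₀ ≠ 0) : degree (F ⊔ K₀) ≠ 0 := by
  haveI : FiniteDimensional k K₀ := FiniteDimensional.of_finrank_pos (Nat.pos_of_ne_zero hK)
  haveI : FiniteDimensional k F := FiniteDimensional.of_finrank_pos (Nat.pos_of_ne_zero hF)
  haveI : FiniteDimensional k (F ⊔ K₀ : Ext k) := IntermediateField.finiteDimensional_sup F K₀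
  exact Module.finrank_pos.ne'

/-- a compositum with a field of exponent a power of `p` -/
theorem index_sup {p : ℕ} [Fact p.Prime] {F : Ext k} (hF : degree F ≠ 0) (hf : f ≠ 0)
    (hK : K₀ ≤ cyclo k f) (m : ℕ) (hm : ∀ g : AbsGal k, g ^ p ^ m ∈ absGal K₀) :
    (galoisIn F (F ⊔ K₀)).Normal ∧ ∃ s : ℕ, (galoisIn F (F ⊔ K₀)).index = p ^ s := by
  have hsup : absGal (F ⊔ K₀) = absGal F ⊓ absGal K₀ := IntermediateField.fixingSubgroup_sup
  have hmem : ∀ g : absGal F, g ∈ galoisIn F (F ⊔ K₀) ↔ (g : AbsGal k) ∈ absGal K₀ := by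
    intro g
    rw [Subgroup.mem_subgroupOf, hsup]
    exact ⟨fun h => h.2, fun h => ⟨g.2, h⟩⟩
  have hn : (galoisIn F (F ⊔ K₀)).Normal := by
    refine ⟨fun g hg σ => ?_⟩
    rw [hmem] at hg ⊢
    exact (normal_cyclo hf hK).conj_mem _ hg σ
  refine ⟨hn, ?_⟩
  have hidx : (galoisIn F (F ⊔ K₀)).index ≠ 0 := by
    intro h0
    have h1 := index_galoisIn (le_sup_left : F ≤ F ⊔ K₀)
    rw [h0, zero_mul] at h1
    exact degree_sup hF (degree_cyclo hf hK) h1.symm
  haveI : (galoisIn F (F ⊔ K₀)).FiniteIndex := ⟨hidx⟩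
  haveI : Finite (absGal F ⧸ galoisIn F (F ⊔ K₀)) := Subgroup.finite_quotient_of_finiteIndex
  have hp : IsPGroup p (absGal F ⧸ galoisIn F (F ⊔ K₀)) := by
    intro g
    obtain ⟨g, rfl⟩ := QuotientGroup.mk_surjective g
    refine ⟨m, ?_⟩
    rw [← QuotientGroup.mk_pow, QuotientGroup.eq_one_iff, hmem]
    exact hm g
  obtain ⟨s, hs⟩ := IsPGroup.iff_card.1 hp
  exact ⟨s, hs⟩

end cyclo

/-- Chinese remainder theorem for power residues -/
theorem crt_pow (T : Finset ℕ) (hT : ∀ q ∈ T, q.Prime) (N l : ℕ)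
    (h : ∀ q ∈ T, ∃ a : ZMod q, a ^ N = (l : ZMod q)) :
    ∃ a : ZMod (∏ q ∈ T, q), a ^ N = (l : ZMod (∏ q ∈ T, q)) := by
  have h1 : ∃ a : ℕ, ∀ q ∈ T, ((a : ℕ) : ZMod q) ^ N = (l : ZMod q) := by
    induction T using Finset.induction_on with
    | empty => exact ⟨0, fun q hq => absurd hq (Finset.notMem_empty q)⟩
    | insert q T hq ih =>
      obtain ⟨a, ha⟩ := ih (fun r hr => hT r (Finset.mem_insert_of_mem hr))
        (fun r hr => h r (Finset.mem_insert_of_mem hr))
      obtain ⟨b, hb⟩ := h q (Finset.mem_insert_self q T)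
      haveI : NeZero q := ⟨(hT q (Finset.mem_insert_self q T)).ne_zero⟩
      have hcop : Nat.Coprime (∏ r ∈ T, r) q := by
        refine Nat.Coprime.prod_left fun r hr => ?_
        exact (Nat.coprime_primes (hT r (Finset.mem_insert_of_mem hr))
          (hT q (Finset.mem_insert_self q T))).2 (fun e => hq (e ▸ hr))
      obtain ⟨c, hc1, hc2⟩ := Nat.chineseRemainder hcop a b.val
      refine ⟨c, fun r hr => ?_⟩
      rcases Finset.mem_insert.1 hr with rfl | hr
      · have e : ((c : ℕ) : ZMod r) = b := by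
          have := (ZMod.natCast_eq_natCast_iff c b.val r).2 hc2
          rw [this, ZMod.natCast_zmod_val]
        rw [e, hb]
      · have e : ((c : ℕ) : ZMod r) = (a : ZMod r) := by
          rw [ZMod.natCast_eq_natCast_iff]
          exact hc1.of_dvd (Finset.dvd_prod_of_mem _ hr)
        rw [e, ha r hr]
  obtain ⟨a, ha⟩ := h1
  refine ⟨(a : ZMod (∏ q ∈ T, q)), ?_⟩
  have h2 : (∏ q ∈ T, q) ∣ ((a : ℤ) ^ N - l).natAbs := by
    refine Finset.prod_primes_dvd _ (fun q hq => (hT q hq).prime) fun q hq => ?_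
    have h3 := ha q hq
    have h4 : (((a : ℤ) ^ N - l : ℤ) : ZMod q) = 0 := by
      push_cast
      rw [h3, sub_self]
    rw [ZMod.intCast_zmod_eq_zero_iff_dvd] at h4
    exact Int.natCast_dvd.1 h4
  have h5 : ((∏ q ∈ T, q : ℕ) : ℤ) ∣ ((a : ℤ) ^ N - l) := Int.natCast_dvd.2 h2
  have h6 := (ZMod.intCast_zmod_eq_zero_iff_dvd _ _).2 h5
  push_cast at h6
  exact sub_eq_zero.1 h6

end Pool.Agent.Y803.SEL
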