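import Pool.Agent.Y803.SEL.Tower
import Pool.Agent.Y803.SEL.Defs

/-! The residual Selmer group as an instance of the abstract setting. -/

set_option autoImplicit false
set_option linter.all false

namespace Pool.Agent.Y803.SEL

open Module Pool.Agent.Y800
open scoped Classical Pointwise

variable {p : ℕ} [Fact p.Prime] {n : ℕ}

theorem toZMod_eq_of_norm_sub_lt {x y : ℤ_[p]} (h : ‖x - y‖ < 1) :
    PadicInt.toZMod x = PadicInt.toZMod y := by
  have h1 : x - y ∈ RingHom.ker (PadicInt.toZMod : ℤ_[p] →+* ZMod p) := by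
    rw [PadicInt.ker_toZMod, IsLocalRing.mem_maximalIdeal]
    exact PadicInt.mem_nonunits.2 h
  have h2 := RingHom.mem_ker.1 h1
  rw [map_sub] at h2
  exact sub_eq_zero.1 h2

theorem continuous_toZMod : Continuous (PadicInt.toZMod : ℤ_[p] → ZMod p) := by
  have hloc : IsLocallyConstant (PadicInt.toZMod : ℤ_[p] → ZMod p) := by
    rw [IsLocallyConstant.iff_exists_open]
    intro x
    refine ⟨Metric.ball x 1, Metric.isOpen_ball, Metric.mem_ball_self one_pos, ?_⟩
    intro y hy
    apply toZMod_eq_of_norm_sub_lt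
    rw [← dist_eq_norm]
    exact hy
  exact hloc.continuous

theorem continuous_entry (i j : Fin n) :
    Continuous fun A : GL (Fin n) ℤ_[p] => (A : Matrix (Fin n) (Fin n) ℤ_[p]) i j := by
  have h : Continuous fun A : GL (Fin n) ℤ_[p] => (A : Matrix (Fin n) (Fin n) ℤ_[p]) :=
    Units.continuous_val
  exact h.matrix_elem i j

section

variable {Γ : Subgroup GQ} (ρ : Γ →* GL (Fin n) ℤ_[p])

/-- the residual representation -/
noncomputable def resRep : Γ →* Module.End (ZMod p) (Fin n → ZMod p) where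
  toFun g := Matrix.mulVecLin ((ρ g : Matrix (Fin n) (Fin n) ℤ_[p]).map (PadicInt.toZMod (p := p)))
  map_one' := by
    rw [map_one]
    apply LinearMap.ext
    intro x
    rw [Matrix.mulVecLin_apply, Units.val_one]
    have : ((1 : Matrix (Fin n) (Fin n) ℤ_[p]).map (PadicInt.toZMod (p := p))) = 1 :=
      Matrix.map_one _ (map_zero _) (map_one _)
    rw [this, Matrix.one_mulVec]
    rfl
  map_mul' g h := by
    rw [map_mul]
    apply LinearMap.ext
    intro x
    rw [Matrix.mulVecLin_apply, Units.val_mul]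
    have : (((ρ g : Matrix (Fin n) (Fin n) ℤ_[p]) * (ρ h : Matrix (Fin n) (Fin n) ℤ_[p])).map
        (PadicInt.toZMod (p := p))) = (ρ g : Matrix (Fin n) (Fin n) ℤ_[p]).map (PadicInt.toZMod (p := p)) *
          (ρ h : Matrix (Fin n) (Fin n) ℤ_[p]).map (PadicInt.toZMod (p := p)) := by
      rw [Matrix.map_mul]
    rw [this, ← Matrix.mulVec_mulVec]
    rfl

theorem resRep_apply (g : Γ) (x : Fin n → ZMod p) : resRep ρ g x = actM (ρ g) x := rfl

theorem actM_mul (A B : GL (Fin n) ℤ_[p]) (x : Fin n → ZMod p) :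
    actM (A * B) x = actM A (actM B x) := by
  unfold actM
  rw [Matrix.mulVec_mulVec, ← Matrix.map_mul, Units.val_mul]

theorem actV_mul (A B : GL (Fin n) ℤ_[p]) (x : Fin n → ℚ_[p]) :
    actV (A * B) x = actV A (actV B x) := by
  unfold actV
  rw [Matrix.mulVec_mulVec, ← Matrix.map_mul, Units.val_mul]

theorem actM_one (x : Fin n → ZMod p) : actM (1 : GL (Fin n) ℤ_[p]) x = x := by
  unfold actM
  rw [Units.val_one, Matrix.map_one _ (map_zero _) (map_one _), Matrix.one_mulVec]

theorem actV_one (x : Fin n → ℚ_[p]) : actV (1 : GL (Fin n) ℤ_[p]) x = x := by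
  unfold actV
  rw [Units.val_one, Matrix.map_one _ (map_zero _) (map_one _), Matrix.one_mulVec]

/-- the action on integral vectors -/
noncomputable def actT (A : GL (Fin n) ℤ_[p]) (x : Fin n → ℤ_[p]) : Fin n → ℤ_[p] :=
  (A : Matrix (Fin n) (Fin n) ℤ_[p]).mulVec x

theorem actV_coe (A : GL (Fin n) ℤ_[p]) (x : Fin n → ℤ_[p]) :
    actV A (fun i => (x i : ℚ_[p])) = fun i => ((actT A x i : ℤ_[p]) : ℚ_[p]) := by
  funext i
  unfold actV actT
  simp only [Matrix.mulVec, dotProduct, Matrix.map_apply]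
  rw [PadicInt.coe_sum]
  refine Finset.sum_congr rfl fun j _ => ?_
  rw [PadicInt.coe_mul]
  rfl

theorem actM_red (A : GL (Fin n) ℤ_[p]) (x : Fin n → ℤ_[p]) :
    actM A (fun i => PadicInt.toZMod (x i)) = fun i => PadicInt.toZMod (actT A x i) := by
  funext i
  unfold actM actT
  simp only [Matrix.mulVec, dotProduct, Matrix.map_apply]
  rw [map_sum]
  refine Finset.sum_congr rfl fun j _ => ?_
  rw [map_mul]

theorem continuous_actM (hρ : Continuous ρ) (x : Fin n → ZMod p) :
    Continuous fun g : Γ => actM (ρ g) x := by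
  refine continuous_pi fun i => ?_
  unfold actM
  simp only [Matrix.mulVec, dotProduct, Matrix.map_apply]
  refine continuous_finset_sum _ fun j _ => ?_
  have h1 : Continuous fun g : Γ => (ρ g : Matrix (Fin n) (Fin n) ℤ_[p]) i j :=
    (continuous_entry i j).comp hρ
  have h2 := continuous_toZMod.comp h1
  exact h2.mul continuous_const

theorem continuous_actV (hρ : Continuous ρ) (v : Fin n → ℚ_[p]) :
    Continuous fun g : Γ => actV (ρ g) v := by
  refine continuous_pi fun i => ?_
  unfold actV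
  simp only [Matrix.mulVec, dotProduct, Matrix.map_apply]
  refine continuous_finset_sum _ fun j _ => ?_
  have h1 : Continuous fun g : Γ => (ρ g : Matrix (Fin n) (Fin n) ℤ_[p]) i j :=
    (continuous_entry i j).comp hρ
  have h2 : Continuous fun x : ℤ_[p] => (x : ℚ_[p]) := continuous_subtype_val
  exact (h2.comp h1).mul continuous_const

/-- the inertia group in `Γ` -/
def inertiaSub (Γ : Subgroup GQ) (P : Ideal ZBar) : Subgroup Γ where
  carrier := {τ | InInertia P (τ : GQ)}
  mul_mem' := by
    intro a b ha hb x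
    have h1 := ha ((b : GQ) • x)
    have h2 := hb x
    have h3 := P.add_mem h1 h2
    have e : ((a * b : Γ) : GQ) • x - x = ((a : GQ) • ((b : GQ) • x) - (b : GQ) • x) + ((b : GQ) • x - x) := by
      rw [Subgroup.coe_mul, mul_smul]
      abel
    rw [e]
    exact h3
  one_mem' := by
    intro x
    rw [Subgroup.coe_one, one_smul, sub_self]
    exact P.zero_mem
  inv_mem' := by
    intro a ha x
    have h1 := ha (((a⁻¹ : Γ) : GQ) • x)
    rw [Subgroup.coe_inv, smul_inv_smul] at h1
    have h2 := P.neg_mem h1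
    rw [neg_sub] at h2
    exact h2

/-- the decomposition group in `Γ` -/
def decompSub (Γ : Subgroup GQ) (P : Ideal ZBar) : Subgroup Γ where
  carrier := {τ | InDecomp P (τ : GQ)}
  mul_mem' := by
    intro a b ha hb x
    rw [Subgroup.coe_mul, mul_smul, ha, hb]
  one_mem' := by
    intro x
    rw [Subgroup.coe_one, one_smul]
  inv_mem' := by
    intro a ha x
    have h := ha (((a⁻¹ : Γ) : GQ) • x)
    rw [Subgroup.coe_inv, smul_inv_smul] at h
    rw [Subgroup.coe_inv]
    exact h.symm

theorem smul_mem_smul {P : Ideal ZBar} (g : GQ) (x : ZBar) : g • x ∈ g • P ↔ x ∈ P := by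
  constructor
  · intro h
    have h2 : g⁻¹ • (g • x) ∈ g⁻¹ • (g • P) := Ideal.smul_mem_pointwise_smul _ _ _ h
    rwa [inv_smul_smul, inv_smul_smul] at h2
  · intro h
    exact Ideal.smul_mem_pointwise_smul _ _ _ h

theorem mem_smul_iff {P : Ideal ZBar} (g : GQ) (x : ZBar) : x ∈ g • P ↔ g⁻¹ • x ∈ P := by
  rw [← smul_mem_smul g (g⁻¹ • x), smul_inv_smul]

end

end Pool.Agent.Y803.SEL
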