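import Pool.Agent.Y803.SEL.Glue

/-! The residual Selmer group as an instance of the abstract setting. -/

set_option autoImplicit false
set_option linter.all false

namespace Pool.Agent.Y803.SEL

open Module Pool.Agent.Y800
open scoped Classical Pointwise

variable {p : ℕ} [Fact p.Prime] {n : ℕ}

variable {Γ : Subgroup GQ} {ρ : Γ →* GL (Fin n) ℤ_[p]} {N₀ : ℕ}

/-- the reductions of the integral elements of `L P` -/
def redL (𝓛 : LocalConditions ρ N₀) (P : Ideal ZBar) : Submodule (ZMod p) (Γ → Fin n → ZMod p) where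
  carrier := {c | ∃ t : Γ → Fin n → ℤ_[p], (fun τ i => ((t τ i : ℤ_[p]) : ℚ_[p])) ∈ 𝓛.L P ∧
      ∀ φ : Γ, InDecomp P (φ : GQ) → ∀ i, PadicInt.toZMod (t φ i) = c φ i}
  add_mem' := by
    rintro a b ⟨c, hc, hc'⟩ ⟨d, hd, hd'⟩
    refine ⟨c + d, ?_, fun τ hτ i => ?_⟩
    · have h := (𝓛.L P).add_mem hc hd
      refine (congrArg (· ∈ 𝓛.L P) ?_).mp h
      funext τ i
      simp
    · simp only [Pi.add_apply, map_add, hc' τ hτ i, hd' τ hτ i]
  zero_mem' := by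
    refine ⟨0, ?_, fun τ hτ i => ?_⟩
    · refine (congrArg (· ∈ 𝓛.L P) ?_).mp (𝓛.L P).zero_mem
      funext τ i
      simp
    · simp
  smul_mem' := by
    rintro r a ⟨c, hc, hc'⟩
    refine ⟨fun τ i => ((r.val : ℕ) : ℤ_[p]) * c τ i, ?_, fun τ hτ i => ?_⟩
    · have h := (𝓛.L P).smul_mem ((r.val : ℕ) : ℚ_[p]) hc
      refine (congrArg (· ∈ 𝓛.L P) ?_).mp h
      funext τ i
      show ((r.val : ℕ) : ℚ_[p]) * ((c τ i : ℤ_[p]) : ℚ_[p]) = ((((r.val : ℕ) : ℤ_[p]) * c τ i : ℤ_[p]) : ℚ_[p])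
      rw [PadicInt.coe_mul, PadicInt.coe_natCast]
    · show PadicInt.toZMod (((r.val : ℕ) : ℤ_[p]) * c τ i) = r * a τ i
      rw [map_mul, map_natCast, hc' τ hτ i, ZMod.natCast_zmod_val]

/-- every residual vector lifts -/
theorem exists_lift (x : Fin n → ZMod p) : ∃ y : Fin n → ℤ_[p], (fun i => PadicInt.toZMod (y i)) = x := by
  refine ⟨fun i => ((x i).val : ℤ_[p]), ?_⟩
  funext i
  rw [map_natCast, ZMod.natCast_zmod_val]

/-- the data -/
noncomputable def theDat (hρ : Continuous ρ)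
    (hur : ∀ P : Ideal ZBar, P.IsMaximal → (N₀ : ZBar) ∉ P → ∀ τ : Γ, InInertia P (τ : GQ) → ρ τ = 1)
    (𝓛 : LocalConditions ρ N₀) : Dat p Γ (Fin n → ZMod p) (Ideal ZBar) where
  r := resRep ρ
  I := inertiaSub Γ
  D := decompSub Γ
  U := {P | P.IsMaximal ∧ (N₀ : ZBar) ∉ P}
  S := 𝓛.S
  Λ := redL 𝓛
  hI := by
    intro P φ hφ τ hτ x
    have h1 := hτ (((φ⁻¹ : Γ) : GQ) • x)
    have h2 := (hφ _).2 h1
    rw [smul_sub] at h2
    have e : ((φ * τ * φ⁻¹ : Γ) : GQ) • x - x =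
        (φ : GQ) • ((τ : GQ) • (((φ⁻¹ : Γ) : GQ) • x)) - (φ : GQ) • (((φ⁻¹ : Γ) : GQ) • x) := by
      rw [Subgroup.coe_mul, Subgroup.coe_mul, mul_smul, mul_smul, Subgroup.coe_inv, smul_inv_smul]
    rw [e]
    exact h2
  hIg := by
    intro g P τ hτ x
    have h1 := hτ (((g⁻¹ : Γ) : GQ) • x)
    have h2 := (smul_mem_smul (P := P) (g : GQ) _).2 h1
    rw [smul_sub] at h2
    have e : ((g * τ * g⁻¹ : Γ) : GQ) • x - x =
        (g : GQ) • ((τ : GQ) • (((g⁻¹ : Γ) : GQ) • x)) - (g : GQ) • (((g⁻¹ : Γ) : GQ) • x) := by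
      rw [Subgroup.coe_mul, Subgroup.coe_mul, mul_smul, mul_smul, Subgroup.coe_inv, smul_inv_smul]
    rw [e]
    exact h2
  hDg := by
    intro g P τ hτ x
    show ((g * τ * g⁻¹ : Γ) : GQ) • x ∈ (g : GQ) • P ↔ x ∈ (g : GQ) • P
    have h := hτ ((g : GQ)⁻¹ • x)
    have e : (g : GQ)⁻¹ * ((g * τ * g⁻¹ : Γ) : GQ) = (τ : GQ) * (g : GQ)⁻¹ := by
      rw [Subgroup.coe_mul, Subgroup.coe_mul, Subgroup.coe_inv]
      group
    have e2 : (g : GQ)⁻¹ • (((g * τ * g⁻¹ : Γ) : GQ) • x) = (τ : GQ) • ((g : GQ)⁻¹ • x) := by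
      rw [← mul_smul, e, mul_smul]
    rw [mem_smul_iff, mem_smul_iff (g : GQ) x, e2]
    exact h
  hU := by
    rintro g P ⟨hP, hN⟩
    refine ⟨?_, ?_⟩
    · show ((g : GQ) • P).IsMaximal
      haveI := hP
      have e : (g : GQ) • P = Ideal.comap (MulSemiringAction.toRingHom GQ ZBar (g : GQ)⁻¹) P :=
        Ideal.ext fun x => mem_smul_iff (g : GQ) x
      rw [e]
      refine Ideal.comap_isMaximal_of_surjective _ ?_
      intro x
      refine ⟨(g : GQ) • x, ?_⟩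
      show (g : GQ)⁻¹ • ((g : GQ) • x) = x
      rw [inv_smul_smul]
    · show (N₀ : ZBar) ∉ (g : GQ) • P
      rw [mem_smul_iff]
      have e : (g : GQ)⁻¹ • (N₀ : ZBar) = (N₀ : ZBar) := by
        have := map_natCast (MulSemiringAction.toRingHom GQ ZBar (g : GQ)⁻¹) N₀
        exact this
      rw [e]
      exact hN
  hS := fun g P hP => 𝓛.stable P hP g
  hr := by
    rintro P ⟨hP, hN⟩ τ hτ
    apply LinearMap.ext
    intro x
    rw [resRep_apply, hur P hP hN τ hτ, actM_one]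
    rfl
  hΛg := by
    rintro P hP g c ⟨t, ht, htc⟩
    refine ⟨fun τ => actT (ρ g) (t (g⁻¹ * τ * g)), ?_, fun φ hφ i => ?_⟩
    · have h := 𝓛.equivariant P hP g _ ht
      refine (congrArg (· ∈ 𝓛.L ((g : GQ) • P)) ?_).mp h
      funext τ
      exact actV_coe _ _
    · show PadicInt.toZMod (actT (ρ g) (t (g⁻¹ * φ * g)) i) = actM (ρ g) (c (g⁻¹ * φ * g)) i
      have h1 : InDecomp P ((g⁻¹ * φ * g : Γ) : GQ) := by
        intro x
        have h2 := hφ ((g : GQ) • x)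
        have h3 : x ∈ P ↔ (g : GQ) • x ∈ (g : GQ) • P := (smul_mem_smul (g : GQ) x).symm
        have h4 : ((g⁻¹ * φ * g : Γ) : GQ) • x ∈ P ↔
            (g : GQ) • (((g⁻¹ * φ * g : Γ) : GQ) • x) ∈ (g : GQ) • P := (smul_mem_smul (g : GQ) _).symm
        rw [h3, h4, ← mul_smul]
        have e : (g : GQ) * ((g⁻¹ * φ * g : Γ) : GQ) = (φ : GQ) * (g : GQ) := by
          rw [Subgroup.coe_mul, Subgroup.coe_mul, Subgroup.coe_inv]
          group
        rw [e, mul_smul]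
        exact h2
      have h5 : c (g⁻¹ * φ * g) = fun i => PadicInt.toZMod (t (g⁻¹ * φ * g) i) := by
        funext i
        exact (htc _ h1 i).symm
      rw [h5, actM_red]
  hΛc := by
    rintro P hP x
    obtain ⟨y, hy⟩ := exists_lift x
    refine ⟨fun τ => actT (ρ τ) y - y, ?_, fun φ hφ i => ?_⟩
    · have h := 𝓛.coboundary P hP (fun i => (y i : ℚ_[p]))
      refine (congrArg (· ∈ 𝓛.L P) ?_).mp h
      funext τ
      rw [actV_coe]
      funext i
      simp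
    · show PadicInt.toZMod (actT (ρ φ) y i - y i) = actM (ρ φ) x i - x i
      rw [← hy, actM_red, map_sub]
  hcont := fun x => continuous_actM ρ hρ x

end Pool.Agent.Y803.SEL
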