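import Pool.Agent.Y803.SEL.Glue2

/-! Comparison of the Selmer group of `V` with the residual Selmer group. -/

set_option autoImplicit false
set_option linter.all false

namespace Pool.Agent.Y803.SEL

open Module Pool.Agent.Y800
open scoped Classical Pointwise

variable {p : ℕ} [Fact p.Prime] {n : ℕ}

variable {Γ : Subgroup GQ} {ρ : Γ →* GL (Fin n) ℤ_[p]} {N₀ : ℕ}

theorem rank_quot_congr {k V : Type} [Field k] [AddCommGroup V] [Module k V]
    {Z Z' B B' : Submodule k V} (hZ : Z = Z') (hB : B = B') :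
    Module.rank k (Z ⧸ B.submoduleOf Z) = Module.rank k (Z' ⧸ B'.submoduleOf Z') := by
  subst hZ hB
  rfl

theorem top_Z (hρ : Continuous ρ)
    (hur : ∀ P : Ideal ZBar, P.IsMaximal → (N₀ : ZBar) ∉ P → ∀ τ : Γ, InInertia P (τ : GQ) → ρ τ = 1)
    (𝓛 : LocalConditions ρ N₀) : (theDat hρ hur 𝓛).Z ⊤ = resCocycles 𝓛 := by
  ext c
  constructor
  · rintro ⟨h1, h2, h3, h4, h5⟩
    refine ⟨h1, fun g h => h3 g trivial h trivial, fun P hP hN => ⟨0, fun τ hτ => ?_⟩, fun P hP => ?_⟩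
    · have h := h4 P ⟨hP, hN⟩ τ hτ trivial
      rw [h]
      simp [actM]
    · obtain ⟨d, ⟨t, ht, htd⟩, hd⟩ := h5 P hP
      refine ⟨t, ht, fun φ hφ i => ?_⟩
      rw [htd φ hφ i, hd φ hφ trivial]
  · rintro ⟨h1, h3, h4, h5⟩
    refine ⟨h1, fun g hg => absurd trivial hg, fun g _ h _ => h3 g h, ?_, fun P hP => ?_⟩
    · rintro P ⟨hP, hN⟩ τ hτ _
      obtain ⟨x, hx⟩ := h4 P hP hN
      rw [hx τ hτ, hur P hP hN τ hτ, actM_one, sub_self]
    · obtain ⟨t, ht, htc⟩ := h5 P hP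
      exact ⟨c, ⟨t, ht, htc⟩, fun φ hφ _ => rfl⟩

theorem top_B (hρ : Continuous ρ)
    (hur : ∀ P : Ideal ZBar, P.IsMaximal → (N₀ : ZBar) ∉ P → ∀ τ : Γ, InInertia P (τ : GQ) → ρ τ = 1)
    (𝓛 : LocalConditions ρ N₀) : (theDat hρ hur 𝓛).B ⊤ = resCoboundaries ρ := by
  ext c
  constructor
  · rintro ⟨x, hx, -⟩
    exact ⟨x, fun τ => hx τ trivial⟩
  · rintro ⟨x, hx⟩
    exact ⟨x, fun τ _ => hx τ, fun g hg => absurd trivial hg⟩

theorem rank_W_top (hρ : Continuous ρ)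
    (hur : ∀ P : Ideal ZBar, P.IsMaximal → (N₀ : ZBar) ∉ P → ∀ τ : Γ, InInertia P (τ : GQ) → ρ τ = 1)
    (𝓛 : LocalConditions ρ N₀) :
    Module.rank (ZMod p) ((theDat hρ hur 𝓛).W ⊤) = Module.rank (ZMod p) (ResSelmer 𝓛) :=
  rank_quot_congr (top_Z hρ hur 𝓛) (top_B hρ hur 𝓛)

theorem finite_res (hfin : S_FIN) (hΓ : IsOpen (Γ : Set GQ)) (hρ : Continuous ρ) (hN₀ : N₀ ≠ 0)
    (hur : ∀ P : Ideal ZBar, P.IsMaximal → (N₀ : ZBar) ∉ P → ∀ τ : Γ, InInertia P (τ : GQ) → ρ τ = 1)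
    (𝓛 : LocalConditions ρ N₀) : Finite (resCocycles 𝓛) := by
  have h := hfin p n Γ hΓ ρ hρ N₀ hN₀ hur
  refine Set.Finite.to_subtype (h.subset ?_)
  rintro c ⟨h1, h2, h3, -⟩
  refine ⟨h1, h2, fun P hP hN τ hτ => ?_⟩
  obtain ⟨x, hx⟩ := h3 P hP hN
  rw [hx τ hτ, hur P hP hN τ hτ, actM_one, sub_self]

/-- the space of the coboundaries has dimension at most `n` -/
theorem finrank_quot {k V : Type} [Field k] [AddCommGroup V] [Module k V] (Z B : Submodule k V)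
    [FiniteDimensional k Z] :
    finrank k (Z ⧸ B.submoduleOf Z) + finrank k (B.submoduleOf Z) = finrank k Z :=
  Submodule.finrank_quotient_add_finrank _

/-- restriction of functions on `Γ` to `H` -/
def resH (p n : ℕ) {Γ : Subgroup GQ} (H : Subgroup Γ) :
    (Γ → Fin n → ZMod p) →ₗ[ZMod p] (H → Fin n → ZMod p) where
  toFun f := fun h => f h
  map_add' _ _ := rfl
  map_smul' _ _ := rfl

/-- extension by zero of the reduction -/
noncomputable def extz {H : Subgroup Γ} (t : H → Fin n → ℤ_[p]) : Γ → Fin n → ZMod p :=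
  fun g => if h : g ∈ H then (fun i => PadicInt.toZMod (t ⟨g, h⟩ i)) else 0

theorem extz_mem {H : Subgroup Γ} (t : H → Fin n → ℤ_[p]) (g : Γ) (hg : g ∈ H) :
    extz t g = fun i => PadicInt.toZMod (t ⟨g, hg⟩ i) := dif_pos hg

theorem extz_not_mem {H : Subgroup Γ} (t : H → Fin n → ℤ_[p]) (g : Γ) (hg : g ∉ H) :
    extz t g = 0 := dif_neg hg

theorem extz_mem_Z (hρ : Continuous ρ)
    (hur : ∀ P : Ideal ZBar, P.IsMaximal → (N₀ : ZBar) ∉ P → ∀ τ : Γ, InInertia P (τ : GQ) → ρ τ = 1)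
    (𝓛 : LocalConditions ρ N₀) (H : Subgroup Γ) (hHo : IsOpen (H : Set Γ))
    (hsplit : ∀ P ∈ 𝓛.S, ∀ φ : Γ, InDecomp P (φ : GQ) → φ ∈ H)
    (t : H → Fin n → ℤ_[p]) (ht : (fun x i => ((t x i : ℤ_[p]) : ℚ_[p])) ∈ selmerCocycles 𝓛 H) :
    extz t ∈ (theDat hρ hur 𝓛).Z H := by
  obtain ⟨h1, h2, h3, h4⟩ := ht
  have hinj : Function.Injective (fun x : ℤ_[p] => (x : ℚ_[p])) := Subtype.coe_injective
  -- continuity of t
  have htc : Continuous t := by
    refine continuous_pi fun i => ?_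
    have h5 : Continuous fun x => ((t x i : ℤ_[p]) : ℚ_[p]) := (continuous_apply i).comp h1
    exact continuous_induced_rng.2 h5
  have htm : ∀ g h : H, t (g * h) = t g + actT (ρ g) (t h) := by
    intro g h
    funext i
    apply hinj
    have h5 := congrFun (h2 g h) i
    simp only [Pi.add_apply] at h5
    rw [actV_coe] at h5
    show ((t (g * h) i : ℤ_[p]) : ℚ_[p]) = ((t g i + actT (ρ g) (t h) i : ℤ_[p]) : ℚ_[p])
    rw [PadicInt.coe_add]
    exact h5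
  refine ⟨?_, fun g hg => extz_not_mem t g hg, fun g hg h hh => ?_, ?_, fun P hP => ?_⟩
  · have hloc : IsLocallyConstant (extz t) := by
      rw [IsLocallyConstant.iff_exists_open]
      intro g
      by_cases hg : g ∈ H
      · have hc : Continuous fun h : H => (fun i => PadicInt.toZMod (t h i) : Fin n → ZMod p) := by
          refine continuous_pi fun i => ?_
          exact continuous_toZMod.comp ((continuous_apply i).comp htc)
        have hopen : IsOpen ((fun h : H => (fun i => PadicInt.toZMod (t h i) : Fin n → ZMod p)) ⁻¹'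
            {fun i => PadicInt.toZMod (t ⟨g, hg⟩ i)}) := (isOpen_discrete _).preimage hc
        refine ⟨Subtype.val '' ((fun h : H => (fun i => PadicInt.toZMod (t h i) : Fin n → ZMod p)) ⁻¹'
            {fun i => PadicInt.toZMod (t ⟨g, hg⟩ i)}), hHo.isOpenMap_subtype_val _ hopen,
            ⟨⟨g, hg⟩, rfl, rfl⟩, ?_⟩
        rintro _ ⟨x, hx, rfl⟩
        rw [extz_mem t g hg, extz_mem t x x.2]
        exact hx
      · refine ⟨(H : Set Γ)ᶜ, (Subgroup.isClosed_of_isOpen H hHo).isOpen_compl, hg, ?_⟩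
        intro x hx
        rw [extz_not_mem t g hg, extz_not_mem t x hx]
    exact hloc.continuous
  · rw [extz_mem t _ (H.mul_mem hg hh), extz_mem t _ hg, extz_mem t _ hh]
    have e : (⟨g * h, H.mul_mem hg hh⟩ : H) = ⟨g, hg⟩ * ⟨h, hh⟩ := rfl
    rw [e, htm]
    show _ = _ + actM (ρ g) _
    rw [actM_red]
    funext i
    show PadicInt.toZMod (t ⟨g, hg⟩ i + actT (ρ g) (t ⟨h, hh⟩) i) =
      PadicInt.toZMod (t ⟨g, hg⟩ i) + PadicInt.toZMod (actT (ρ g) (t ⟨h, hh⟩) i)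
    rw [map_add]
  · rintro P ⟨hP, hN⟩ τ hτ hτH
    obtain ⟨v, hv⟩ := h3 P hP hN
    have h5 := hv ⟨τ, hτH⟩ hτ
    have h6 : ρ τ = 1 := hur P hP hN τ hτ
    rw [extz_mem t τ hτH]
    funext i
    have h7 : t ⟨τ, hτH⟩ i = 0 := by
      apply hinj
      have h8 := congrFun h5 i
      have h9 : actV (ρ ((⟨τ, hτH⟩ : H) : Γ)) v = v := by
        show actV (ρ τ) v = v
        rw [h6, actV_one]
      rw [h9, sub_self] at h8
      exact h8
    rw [h7, map_zero]
    rfl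
  · obtain ⟨c', hc', hc⟩ := h4 P hP
    refine ⟨extz t, ⟨fun φ => if h : φ ∈ H then t ⟨φ, h⟩ else 0, ?_, fun φ hφ i => ?_⟩,
      fun φ hφ _ => rfl⟩
    · refine 𝓛.locality P hP c' _ (fun φ hφ => ?_) hc'
      have hφH := hsplit P hP φ hφ
      rw [hc ⟨φ, hφH⟩ hφ]
      funext i
      have e : (if h : φ ∈ H then t ⟨φ, h⟩ else 0 : Fin n → ℤ_[p]) = t ⟨φ, hφH⟩ := dif_pos hφH
      exact (congrArg (fun z : Fin n → ℤ_[p] => ((z i : ℤ_[p]) : ℚ_[p])) e).symm
    · have hφH := hsplit P hP φ hφ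
      rw [extz_mem t φ hφH]
      show PadicInt.toZMod ((if h : φ ∈ H then t ⟨φ, h⟩ else 0) i) = _
      rw [dif_pos hφH]

end Pool.Agent.Y803.SEL
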