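import Pool.Agent.Y803.SEL.Glue3
import Pool.Agent.Y419.SEL.Lat

/-! The bound for the Selmer group of `V`. -/

set_option autoImplicit false
set_option linter.all false

namespace Pool.Agent.Y803.SEL

open Module Pool.Agent.Y800
open scoped Classical Pointwise

variable {p : ℕ} [Fact p.Prime] {n : ℕ}

variable {Γ : Subgroup GQ} {ρ : Γ →* GL (Fin n) ℤ_[p]} {N₀ : ℕ}

/-- the coboundary map mod `p` -/
noncomputable def cobM (ρ : Γ →* GL (Fin n) ℤ_[p]) (H : Subgroup Γ) :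
    (Fin n → ZMod p) →ₗ[ZMod p] (Γ → Fin n → ZMod p) where
  toFun x := fun g => if g ∈ H then resRep ρ g x - x else 0
  map_add' x y := by
    funext g
    by_cases h : g ∈ H
    · simp only [if_pos h, Pi.add_apply, map_add]
      abel
    · simp [if_neg h]
  map_smul' s x := by
    funext g
    by_cases h : g ∈ H
    · simp only [if_pos h, Pi.smul_apply, map_smul, RingHom.id_apply, smul_sub]
    · simp [if_neg h]

theorem B_eq_range (hρ : Continuous ρ)
    (hur : ∀ P : Ideal ZBar, P.IsMaximal → (N₀ : ZBar) ∉ P → ∀ τ : Γ, InInertia P (τ : GQ) → ρ τ = 1)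
    (𝓛 : LocalConditions ρ N₀) (H : Subgroup Γ) :
    (theDat hρ hur 𝓛).B H ≤ LinearMap.range (cobM ρ H) := by
  rintro f ⟨x, hx, hx'⟩
  refine ⟨x, ?_⟩
  funext g
  by_cases h : g ∈ H
  · rw [hx g h]
    exact if_pos h
  · rw [hx' g h]
    exact if_neg h

/-- the coboundary map over `ℚ_p` -/
noncomputable def cobV (ρ : Γ →* GL (Fin n) ℤ_[p]) (H : Subgroup Γ) :
    (Fin n → ℚ_[p]) →ₗ[ℚ_[p]] (H → Fin n → ℚ_[p]) where
  toFun v := fun τ => actV (ρ τ) v - v
  map_add' x y := by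
    funext g
    simp only [actV, Matrix.mulVec_add, Pi.add_apply]
    abel
  map_smul' s x := by
    funext g
    simp only [actV, Matrix.mulVec_smul, Pi.smul_apply, RingHom.id_apply, smul_sub]

theorem range_cobV (ρ : Γ →* GL (Fin n) ℤ_[p]) (H : Subgroup Γ) :
    LinearMap.range (cobV ρ H) = coboundaries ρ H := by
  ext c
  constructor
  · rintro ⟨v, rfl⟩
    exact ⟨v, fun τ => rfl⟩
  · rintro ⟨v, hv⟩
    exact ⟨v, (funext fun τ => hv τ).symm⟩

theorem toZMod_ne_zero {x : ℤ_[p]} (h : ‖x‖ = 1) : PadicInt.toZMod x ≠ 0 := by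
  intro h0
  have h1 : x ∈ RingHom.ker (PadicInt.toZMod : ℤ_[p] →+* ZMod p) := RingHom.mem_ker.2 h0
  rw [PadicInt.ker_toZMod, IsLocalRing.mem_maximalIdeal] at h1
  have h2 := PadicInt.mem_nonunits.1 h1
  rw [h] at h2
  exact lt_irrefl _ h2

theorem cobV_injective (H : Subgroup Γ)
    (hMH : ∀ x : Fin n → ZMod p, (∀ g ∈ H, actM (ρ g) x = x) → x = 0) :
    Function.Injective (cobV ρ H) := by
  rw [injective_iff_map_eq_zero]
  intro v hv
  by_contra hv0
  have hfix : ∀ g ∈ H, actV (ρ g) v = v := by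
    intro g hg
    have h := congrFun hv ⟨g, hg⟩
    exact sub_eq_zero.1 h
  obtain ⟨k, -, j, hj, hle⟩ := Pool.Agent.Y419.SEL.scale (p := p) (n := n) (fun _ : Unit => v)
    (fun h => hv0 (congrFun h ())) (by
      obtain ⟨C, hC⟩ := (Set.finite_range fun i => ‖v i‖).bddAbove
      exact ⟨C, fun _ i => hC ⟨i, rfl⟩⟩)
  let y : Fin n → ℤ_[p] := fun i => ⟨(p : ℚ_[p]) ^ k * v i, hle () i⟩
  have hy : (fun i => (y i : ℚ_[p])) = (p : ℚ_[p]) ^ k • v := rfl
  have h0 := hMH (fun i => PadicInt.toZMod (y i)) (fun g hg => by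
    rw [actM_red]
    have h1 : actT (ρ g) y = y := by
      have h2 := actV_coe (ρ g) y
      rw [hy] at h2
      have h3 : actV (ρ g) ((p : ℚ_[p]) ^ k • v) = (p : ℚ_[p]) ^ k • v := by
        have h4 : actV (ρ g) ((p : ℚ_[p]) ^ k • v) = (p : ℚ_[p]) ^ k • actV (ρ g) v := by
          unfold actV
          rw [Matrix.mulVec_smul]
        rw [h4, hfix g hg]
      rw [h3, ← hy] at h2
      funext i
      exact Subtype.ext (congrFun h2 i).symm
    rw [h1])
  have h5 := congrFun h0 j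
  exact toZMod_ne_zero (x := y j) hj h5

theorem coboundaries_le (hρ : Continuous ρ)
    (hur : ∀ P : Ideal ZBar, P.IsMaximal → (N₀ : ZBar) ∉ P → ∀ τ : Γ, InInertia P (τ : GQ) → ρ τ = 1)
    (𝓛 : LocalConditions ρ N₀) (H : Subgroup Γ) : coboundaries ρ H ≤ selmerCocycles 𝓛 H := by
  rintro c ⟨v, hv⟩
  refine ⟨?_, fun g h => ?_, fun P hP hN => ⟨v, fun τ _ => hv τ⟩,
    fun P hP => ⟨_, 𝓛.coboundary P hP v, fun τ _ => (hv τ).symm⟩⟩
  · have e : c = fun τ : H => actV (ρ τ) v - v := funext hv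
    rw [e]
    exact ((continuous_actV ρ hρ v).comp continuous_subtype_val).sub continuous_const
  · rw [hv, hv, hv]
    have e : ((g * h : H) : Γ) = (g : Γ) * (h : Γ) := rfl
    rw [e, map_mul, actV_mul]
    have e2 : actV (ρ g) (actV (ρ h) v - v) = actV (ρ g) (actV (ρ h) v) - actV (ρ g) v := by
      simp only [actV, Matrix.mulVec_sub]
    rw [e2]
    abel

theorem bounded_of_continuous (hΓ : IsOpen (Γ : Set GQ)) (H : Subgroup Γ)
    (hHo : IsOpen (H : Set Γ)) (c : H → Fin n → ℚ_[p]) (hc : Continuous c) :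
    ∃ C : ℝ, ∀ x i, ‖c x i‖ ≤ C := by
  haveI : CompactSpace Γ := isCompact_iff_compactSpace.1
    (Subgroup.isClosed_of_isOpen Γ hΓ).isCompact
  haveI : CompactSpace H := isCompact_iff_compactSpace.1
    (Subgroup.isClosed_of_isOpen H hHo).isCompact
  have h1 : Continuous fun x => ‖c x‖ := hc.norm
  obtain ⟨C, hC⟩ := (isCompact_range h1).bddAbove
  exact ⟨C, fun x i => (norm_le_pi_norm (c x) i).trans (hC ⟨x, rfl⟩)⟩

theorem main_bound (hlat : S_LAT) (htow : S_TOW) (hfix : S_FIX) (hfin : S_FIN)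
    (hΓ : IsOpen (Γ : Set GQ)) (hρ : Continuous ρ) (hN₀ : N₀ ≠ 0)
    (hur : ∀ P : Ideal ZBar, P.IsMaximal → (N₀ : ZBar) ∉ P → ∀ τ : Γ, InInertia P (τ : GQ) → ρ τ = 1)
    (𝓛 : LocalConditions ρ N₀) (hM : ∀ x : Fin n → ZMod p, (∀ g : Γ, actM (ρ g) x = x) → x = 0)
    (H : Subgroup Γ) (hHo : IsOpen (H : Set Γ)) (s : ℕ) (hHn : H.Normal) (hidx : H.index = p ^ s)
    (hgood : Good 𝓛 H) :
    FiniteDimensional ℚ_[p] (Selmer 𝓛 H) ∧
      finrank ℚ_[p] (Selmer 𝓛 H) ≤ p ^ s * finrank (ZMod p) (ResSelmer 𝓛) := by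
  set 𝒟 := theDat hρ hur 𝓛 with h𝒟
  haveI hZf : Finite (resCocycles 𝓛) := finite_res hfin hΓ hρ hN₀ hur 𝓛
  haveI : Finite (ResSelmer 𝓛) := Quotient.finite _
  haveI hRf : FiniteDimensional (ZMod p) (ResSelmer 𝓛) := Module.Finite.of_finite
  have hMH : ∀ x : Fin n → ZMod p, (∀ g ∈ H, actM (ρ g) x = x) → x = 0 := by
    intro x hx
    exact hfix p Γ (Fin n → ZMod p) (resRep ρ) ⊤ H s hHn hidx (fun x hx => hM x fun g => hx g trivial) x
      (fun φ _ hφ => hx φ hφ)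
  have h1 := tower 𝒟 htow hfix H s hHn hidx hHo hM hgood.1 (fun P hP => hgood.2 P hP.1 hP.2)
  rw [rank_W_top hρ hur 𝓛, ← finrank_eq_rank (ZMod p) (ResSelmer 𝓛)] at h1
  have h2 : Module.rank (ZMod p) (𝒟.W H) < Cardinal.aleph0 := by
    refine lt_of_le_of_lt h1 ?_
    have : ((p : Cardinal) ^ s * ((finrank (ZMod p) (ResSelmer 𝓛) : ℕ) : Cardinal)) =
        ((p ^ s * finrank (ZMod p) (ResSelmer 𝓛) : ℕ) : Cardinal) := by
      push_cast
      rfl
    rw [this]
    exact Cardinal.natCast_lt_aleph0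
  haveI hWf : FiniteDimensional (ZMod p) (𝒟.W H) := Module.rank_lt_aleph0_iff.1 h2
  have h3 : finrank (ZMod p) (𝒟.W H) ≤ p ^ s * finrank (ZMod p) (ResSelmer 𝓛) := by
    rw [← finrank_eq_rank] at h1
    exact_mod_cast h1
  -- the coboundaries mod p
  haveI hBf : FiniteDimensional (ZMod p) (𝒟.B H) :=
    Submodule.finiteDimensional_of_le (B_eq_range hρ hur 𝓛 H)
  have hB : finrank (ZMod p) (𝒟.B H) ≤ n := by
    refine le_trans (Submodule.finrank_mono (B_eq_range hρ hur 𝓛 H)) ?_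
    refine le_trans (LinearMap.finrank_range_le _) ?_
    rw [finrank_fin_fun]
  let j : (𝒟.B H).submoduleOf (𝒟.Z H) →ₗ[ZMod p] 𝒟.B H :=
    { toFun := fun x => ⟨((x : 𝒟.Z H) : Γ → Fin n → ZMod p), x.2⟩
      map_add' := fun _ _ => rfl
      map_smul' := fun _ _ => rfl }
  have hj : Function.Injective j := by
    intro x y hxy
    apply Subtype.ext
    apply Subtype.ext
    exact congrArg (fun z : 𝒟.B H => (z : Γ → Fin n → ZMod p)) hxy
  haveI hBf2 : FiniteDimensional (ZMod p) ((𝒟.B H).submoduleOf (𝒟.Z H)) :=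
    FiniteDimensional.of_injective j hj
  have hB2 : finrank (ZMod p) ((𝒟.B H).submoduleOf (𝒟.Z H)) ≤ n :=
    (LinearMap.finrank_le_finrank_of_injective hj).trans hB
  haveI hZf2 : FiniteDimensional (ZMod p) (𝒟.Z H) :=
    Module.Finite.of_submodule_quotient ((𝒟.B H).submoduleOf (𝒟.Z H))
  have hZ : finrank (ZMod p) (𝒟.Z H) ≤ finrank (ZMod p) (𝒟.W H) + n := by
    rw [← finrank_quot (𝒟.Z H) (𝒟.B H)]
    exact Nat.add_le_add_left hB2 _
  -- the lattice
  have hE := hlat p H n (selmerCocycles 𝓛 H) ((𝒟.Z H).map (resH p n H))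
    (fun f hf => bounded_of_continuous hΓ H hHo f hf.1) inferInstance
    (fun t ht => ⟨extz t, extz_mem_Z hρ hur 𝓛 H hHo hgood.1 t ht, by
      funext x
      exact extz_mem t x x.2⟩)
  haveI := hE.1
  have hR : finrank (ZMod p) ((𝒟.Z H).map (resH p n H)) ≤ finrank (ZMod p) (𝒟.Z H) :=
    Submodule.finrank_map_le _ _
  -- the coboundaries over the p-adic numbers
  have hC : finrank ℚ_[p] ((coboundaries ρ H).submoduleOf (selmerCocycles 𝓛 H)) = n := by
    rw [(Submodule.submoduleOfEquivOfLe (coboundaries_le hρ hur 𝓛 H)).finrank_eq, ← range_cobV,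
      LinearMap.finrank_range_of_inj (cobV_injective H hMH), finrank_fin_fun]
  have hS := finrank_quot (selmerCocycles 𝓛 H) (coboundaries ρ H)
  refine ⟨inferInstance, ?_⟩
  have : finrank ℚ_[p] (Selmer 𝓛 H) + n ≤ p ^ s * finrank (ZMod p) (ResSelmer 𝓛) + n := by
    calc finrank ℚ_[p] (Selmer 𝓛 H) + n = finrank ℚ_[p] (selmerCocycles 𝓛 H) := by rw [← hS, hC]
      _ ≤ finrank (ZMod p) ((𝒟.Z H).map (resH p n H)) := hE.2
      _ ≤ finrank (ZMod p) (𝒟.Z H) := hR
      _ ≤ finrank (ZMod p) (𝒟.W H) + n := hZ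
      _ ≤ _ := Nat.add_le_add_right h3 _
  exact Nat.le_of_add_le_add_right this

end Pool.Agent.Y803.SEL
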