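import Pool.Agent.Y803.SEL.Fields
import Pool.Agent.Y710.SEL.Fin
import Pool.Agent.Y419.SEL.Cheb
import Pool.Agent.Y674.SEL.Cyc
import Pool.Agent.Y655.SEL.Fix
import Pool.Agent.Y655.SEL.Tow

/-! Selmer groups in `p`-extensions of number fields: the internal form of the main theorem. -/

set_option autoImplicit false
set_option linter.all false

namespace Pool.Agent.Y803.SEL

open Pool.Agent.Y800

theorem main_fields (p : ℕ) [Fact p.Prime] (n : ℕ) (F : Ext ℚ) (hF : degree F ≠ 0)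
    (ρ : absGal F →* GL (Fin n) ℤ_[p]) (hρ : Continuous ρ) (N₀ : ℕ) (hN₀ : N₀ ≠ 0)
    (hur : ∀ P : Ideal ZBar, P.IsMaximal → (N₀ : ZBar) ∉ P →
      ∀ τ : absGal F, InInertia P (τ : GQ) → ρ τ = 1)
    (hM : ∀ x : Fin n → ZMod p, (∀ g : absGal F, actM (ρ g) x = x) → x = 0)
    (𝓛 : LocalConditions ρ N₀) :
    FiniteDimensional (ZMod p) (ResSelmer 𝓛) ∧
    (∀ (K : Ext ℚ) (s : ℕ), F ≤ K → (∀ σ : GQ, (∀ x ∈ F, σ x = x) → ∀ x ∈ K, σ x ∈ K) →
      degree K = p ^ s * degree F → Good 𝓛 (galoisIn F K) →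
      FiniteDimensional ℚ_[p] (Selmer 𝓛 (galoisIn F K)) ∧
      Module.finrank ℚ_[p] (Selmer 𝓛 (galoisIn F K)) ≤
        p ^ s * Module.finrank (ZMod p) (ResSelmer 𝓛)) ∧
    (∀ σ : GQ, (∀ z : AlgebraicClosure ℚ, z ^ p = 1 → σ z = z) →
      (∀ g : GQ, ∃ h : g * σ * g⁻¹ ∈ absGal F,
        ∀ x : Fin n → ZMod p, actM (ρ ⟨g * σ * g⁻¹, h⟩) x = x → x = 0) →
      ∀ m : ℕ, ∃ Q : Set ℕ, Q.Infinite ∧ (∀ q ∈ Q, q.Prime ∧ q ≡ 1 [MOD p ^ m]) ∧
        ∀ T : Finset ℕ, (∀ q ∈ T, q ∈ Q) → ∀ K₀ : Ext ℚ, K₀ ≤ cyclo ℚ (∏ q ∈ T, q) →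
          (∀ g : GQ, ∀ x ∈ K₀, (g ^ p ^ m) x = x) →
          ∃ s : ℕ, degree (F ⊔ K₀) = p ^ s * degree F ∧
            FiniteDimensional ℚ_[p] (Selmer 𝓛 (galoisIn F (F ⊔ K₀))) ∧
            Module.finrank ℚ_[p] (Selmer 𝓛 (galoisIn F (F ⊔ K₀))) ≤
              p ^ s * Module.finrank (ZMod p) (ResSelmer 𝓛)) := by
  have hΓ : IsOpen (absGal F : Set GQ) := open_absGal hF
  have hp : p.Prime := Fact.out
  have hmain := fun (K : Ext ℚ) (hK : degree K ≠ 0) =>
    main_bound Pool.Agent.Y419.SEL.t Pool.Agent.Y655.SEL.Tow.t Pool.Agent.Y655.SEL.Fix.t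
    Pool.Agent.Y710.SEL.Fin.t hΓ hρ hN₀ hur 𝓛 hM (galoisIn F K) (open_galoisIn hK)
  refine ⟨?_, ?_, ?_⟩
  · haveI hZf : Finite (resCocycles 𝓛) :=
      finite_res Pool.Agent.Y710.SEL.Fin.t hΓ hρ hN₀ hur 𝓛
    haveI : Finite (ResSelmer 𝓛) := Quotient.finite _
    exact Module.Finite.of_finite
  · intro K s hFK hgal hdeg hgood
    have hK : degree K ≠ 0 := by
      rw [hdeg]
      exact Nat.mul_ne_zero (pow_ne_zero _ hp.ne_zero) hF
    exact hmain K hK s (normal_galoisIn hgal) (index_galoisIn_eq hF hFK _ hdeg) hgood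
  · intro σ hσ hσ' m
    refine ⟨_, Pool.Agent.Y419.SEL.Cheb.t p n (absGal F) hΓ ρ hρ N₀ hN₀ σ hσ hσ' m,
      fun q hq => ⟨hq.1, hq.2.2.1⟩, ?_⟩
    intro T hT K₀ hK₀ hexp
    have hTp : ∀ q ∈ T, q.Prime := fun q hq => (hT q hq).1
    have hf : (∏ q ∈ T, q) ≠ 0 := Finset.prod_ne_zero_iff.2 fun q hq => (hTp q hq).ne_zero
    have hexp' : ∀ g : GQ, g ^ p ^ m ∈ absGal K₀ := fun g =>
      (IntermediateField.mem_fixingSubgroup_iff _ _).2 (hexp g)
    obtain ⟨hn, s, hs⟩ := index_sup (p := p) hF hf hK₀ m hexp'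
    have hsup : absGal (F ⊔ K₀) = absGal F ⊓ absGal K₀ := IntermediateField.fixingSubgroup_sup
    have hmem : ∀ g : absGal F, (g : GQ) ∈ absGal K₀ → g ∈ galoisIn F (F ⊔ K₀) := by
      intro g hg
      rw [Subgroup.mem_subgroupOf, hsup]
      exact ⟨g.2, hg⟩
    obtain ⟨hc1, hc2⟩ := Pool.Agent.Y674.SEL.Cyc.t p m (∏ q ∈ T, q) hf (absGal K₀)
      (fun g hg => mem_of_fix hK₀ g hg)
    refine ⟨s, ?_, ?_⟩
    · rw [← hs]
      exact (index_galoisIn le_sup_left).symm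
    · refine hmain (F ⊔ K₀) (degree_sup hF (degree_cyclo hf hK₀)) s hn hs ⟨?_, ?_⟩
      · -- the places with conditions
        intro P hP φ hφ
        apply hmem
        haveI := 𝓛.isMaximal P hP
        have hN := 𝓛.mem P hP
        obtain ⟨l, hl, hlN, hlP⟩ : ∃ l : ℕ, l.Prime ∧ l ∣ N₀ ∧ (l : ZBar) ∈ P := by
          have hprod : (N₀.primeFactorsList.map (fun l : ℕ => (l : ZBar))).prod ∈ P := by
            have e : (N₀.primeFactorsList.map (fun l : ℕ => (l : ZBar))).prod = (N₀ : ZBar) := by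
              rw [← Nat.cast_list_prod, Nat.prod_primeFactorsList hN₀]
            rw [e]
            exact hN
          have hP2 : P.IsPrime := Ideal.IsMaximal.isPrime (𝓛.isMaximal P hP)
          obtain ⟨l, hl, hlP⟩ := (hP2.multiset_prod_mem_iff_exists_mem
            (N₀.primeFactorsList.map (fun l : ℕ => (l : ZBar)) : Multiset ZBar)).1
            (by rw [Multiset.prod_coe]; exact hprod)
          rw [Multiset.mem_coe, List.mem_map] at hl
          obtain ⟨l', hl', rfl⟩ := hl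
          exact ⟨l', Nat.prime_of_mem_primeFactorsList hl', Nat.dvd_of_mem_primeFactorsList hl', hlP⟩
        have hcop : l.Coprime (∏ q ∈ T, q) := by
          refine Nat.Coprime.prod_right fun q hq => ?_
          refine (Nat.coprime_primes hl (hTp q hq)).2 ?_
          rintro rfl
          exact (hT l hq).2.1 hlN
        exact hc2 hexp' l hl hcop
          (crt_pow T hTp _ l (fun q hq => (hT q hq).2.2.2.1 l hl hlN)) P (𝓛.isMaximal P hP) hlP φ hφ
      · intro P hP hN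
        by_cases hfP : ((∏ q ∈ T, q : ℕ) : ZBar) ∈ P
        · right
          rw [Nat.cast_prod] at hfP
          have hP2 : P.IsPrime := Ideal.IsMaximal.isPrime hP
          obtain ⟨q, hq, hqP⟩ := (hP2.prod_mem_iff).1 hfP
          obtain ⟨φ, hφ, hφx⟩ := (hT q hq).2.2.2.2 P hP hqP
          intro x hx
          exact hφx x (hx φ hφ)
        · left
          intro τ hτ
          exact hmem τ (hc1 P hP hfP τ hτ)

end Pool.Agent.Y803.SEL
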