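import Mathlib

/-! The rank of a vector space with a nilpotent endomorphism. -/

set_option autoImplicit false
set_option linter.all false

namespace Pool.Agent.Y803.SEL

open Module

variable {k V : Type} [Field k] [AddCommGroup V] [Module k V]

theorem rank_ker_pow (T : V →ₗ[k] V) (d : Cardinal) (hd : Module.rank k (LinearMap.ker T) ≤ d)
    (m : ℕ) : Module.rank k (LinearMap.ker (T ^ m)) ≤ m * d := by
  induction m with
  | zero =>
    have h : LinearMap.ker (T ^ 0) = ⊥ := by
      rw [pow_zero]
      exact LinearMap.ker_id
    rw [h, rank_bot]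
    exact zero_le
  | succ m ih =>
    set S := (T ^ m).domRestrict (LinearMap.ker (T ^ (m + 1))) with hS
    have h1 := LinearMap.rank_range_add_rank_ker S
    have h2 : Module.rank k (LinearMap.range S) ≤ d := by
      refine le_trans (Submodule.rank_mono ?_) hd
      rintro _ ⟨x, rfl⟩
      rw [LinearMap.mem_ker]
      have hx : (T ^ (m + 1)) (x : V) = 0 := LinearMap.mem_ker.1 x.2
      have hx' : (T ^ (m + 1)) (x : V) = T ((T ^ m) (x : V)) := by
        have := congrArg (fun g : V →ₗ[k] V => g (x : V)) (pow_succ' T m)
        exact this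
      rw [hx'] at hx
      exact hx
    have h3 : Module.rank k (LinearMap.ker S) ≤ m * d := by
      refine le_trans ?_ ih
      have hmem : ∀ x : LinearMap.ker S, ((x : LinearMap.ker (T ^ (m + 1))) : V) ∈ LinearMap.ker (T ^ m) := by
        intro x
        rw [LinearMap.mem_ker]
        exact LinearMap.mem_ker.1 x.2
      let φ : LinearMap.ker S →ₗ[k] LinearMap.ker (T ^ m) :=
        LinearMap.codRestrict _ ((Submodule.subtype _).comp (Submodule.subtype _)) hmem
      refine LinearMap.rank_le_of_injective φ ?_
      intro x y hxy
      apply Subtype.ext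
      apply Subtype.ext
      exact congrArg (fun z : LinearMap.ker (T ^ m) => (z : V)) hxy
    rw [← h1, Nat.cast_succ, add_mul, one_mul, add_comm]
    exact add_le_add h3 h2

theorem rank_le_of_nilpotent (T : V →ₗ[k] V) (m : ℕ) (hT : T ^ m = 0) (d : Cardinal)
    (hd : Module.rank k (LinearMap.ker T) ≤ d) : Module.rank k V ≤ m * d := by
  have h := rank_ker_pow T d hd m
  rw [hT, LinearMap.ker_zero, rank_top] at h
  exact h

end Pool.Agent.Y803.SEL
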