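import Pool.Agent.Y800.Defs

/-! Selmer groups of `p`-adic Galois representations: the definitions used in the final statements. -/

set_option autoImplicit false

namespace Pool.Agent.Y803.SEL.Out

open Pool.Agent.Y800
open scoped Pointwise

/-- `φ` lies in the decomposition group at the maximal ideal `P` of the ring of all algebraic
integers. -/
def InDecomp (P : Ideal ZBar) (φ : GQ) : Prop := ∀ x : ZBar, φ • x ∈ P ↔ x ∈ P

section

variable {p : ℕ} [Fact p.Prime] {n : ℕ}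

/-- The action of an invertible matrix over `ℤ_p` on `V = ℚ_p ^ n`. -/
noncomputable def actV (A : GL (Fin n) ℤ_[p]) (v : Fin n → ℚ_[p]) : Fin n → ℚ_[p] :=
  ((A : Matrix (Fin n) (Fin n) ℤ_[p]).map (algebraMap ℤ_[p] ℚ_[p])).mulVec v

/-- The action of an invertible matrix over `ℤ_p` on `M = 𝔽_p ^ n`. -/
noncomputable def actM (A : GL (Fin n) ℤ_[p]) (x : Fin n → ZMod p) : Fin n → ZMod p :=
  ((A : Matrix (Fin n) (Fin n) ℤ_[p]).map (PadicInt.toZMod (p := p))).mulVec x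

end

/-- The space of the functions on `X` with values in `V`. -/
def FunV (p : ℕ) [Fact p.Prime] (n : ℕ) (X : Type) : Type := X → Fin n → ℚ_[p]

/-- The space of the functions on `X` with values in `M`. -/
def FunM (p n : ℕ) (X : Type) : Type := X → Fin n → ZMod p

noncomputable instance (p : ℕ) [Fact p.Prime] (n : ℕ) (X : Type) : AddCommGroup (FunV p n X) :=
  Pi.addCommGroup

noncomputable instance (p : ℕ) [Fact p.Prime] (n : ℕ) (X : Type) : Module ℚ_[p] (FunV p n X) :=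
  Pi.module _ _ _

noncomputable instance (p n : ℕ) (X : Type) : AddCommGroup (FunM p n X) :=
  Pi.addCommGroup

noncomputable instance (p n : ℕ) (X : Type) : Module (ZMod p) (FunM p n X) :=
  Pi.module _ _ _

variable {p : ℕ} [Fact p.Prime] {n : ℕ} {G : Type} [Group G] [TopologicalSpace G]

/-- The function with values in `V` defined by an integral function. -/
def ofInt {X : Type} (t : X → Fin n → ℤ_[p]) : FunV p n X := fun τ i => (t τ i : ℚ_[p])

/-- The coboundary `g ↦ g v - v`. -/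
noncomputable def cobV (ρ : G →* GL (Fin n) ℤ_[p]) (v : Fin n → ℚ_[p]) : FunV p n G :=
  fun τ => actV (ρ τ) v - v

/-- The conjugate of a function. -/
noncomputable def conjV (ρ : G →* GL (Fin n) ℤ_[p]) (g : G) (c : FunV p n G) : FunV p n G :=
  fun τ => actV (ρ g) (c (g⁻¹ * τ * g))

/-- A family of local conditions for `V`, where the group `G`, which acts on the algebraic numbers
through `e` and on `V` through `ρ`, is the absolute Galois group of a number field: a `G`-stable set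
`S` of maximal ideals `P` dividing `N₀` and, for `P` in `S`, a `ℚ_p`-subspace `L P` of the functions
on the decomposition group of `P` in `G` (written as functions on `G`, of which only the restriction
to the decomposition group matters), which contains the coboundaries, compatibly with the action
of `G`. -/
structure LocCond (e : G →* GQ) (ρ : G →* GL (Fin n) ℤ_[p]) (N₀ : ℕ) where
  /-- the places at which a condition is imposed -/
  S : Set (Ideal ZBar)
  isMaximal : ∀ P ∈ S, P.IsMaximal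
  mem : ∀ P ∈ S, (N₀ : ZBar) ∈ P
  /-- the local condition at `P` -/
  L : Ideal ZBar → Submodule ℚ_[p] (FunV p n G)
  locality : ∀ P ∈ S, ∀ c c' : FunV p n G,
    (∀ φ : G, InDecomp P (e φ) → c φ = c' φ) → c ∈ L P → c' ∈ L P
  coboundary : ∀ P ∈ S, ∀ v : Fin n → ℚ_[p], cobV ρ v ∈ L P
  stable : ∀ P ∈ S, ∀ g : G, e g • P ∈ S
  equivariant : ∀ P ∈ S, ∀ g : G, ∀ c ∈ L P, conjV ρ g c ∈ L (e g • P)

variable {e : G →* GQ} {ρ : G →* GL (Fin n) ℤ_[p]} {N₀ : ℕ}

/-- `c` is a continuous crossed homomorphism `H → V` which is a coboundary on the inertia groups at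
all maximal ideals not dividing `N₀` and satisfies the local conditions at the places of `S`. -/
def IsSelmer (𝓛 : LocCond e ρ N₀) (H : Subgroup G) (c : H → Fin n → ℚ_[p]) : Prop :=
  Continuous c ∧ (∀ g h : H, c (g * h) = c g + actV (ρ g) (c h)) ∧
    (∀ P : Ideal ZBar, P.IsMaximal → (N₀ : ZBar) ∉ P → ∃ v : Fin n → ℚ_[p],
      ∀ τ : H, InInertia P (e τ) → c τ = actV (ρ τ) v - v) ∧
    ∀ P ∈ 𝓛.S, ∃ c' ∈ 𝓛.L P, ∀ τ : H, InDecomp P (e τ) → c' τ = c τ

theorem IsSelmer.add (𝓛 : LocCond e ρ N₀) (H : Subgroup G) {a b : FunV p n H}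
    (ha : IsSelmer 𝓛 H a) (hb : IsSelmer 𝓛 H b) : IsSelmer 𝓛 H (a + b : FunV p n H) := by
  obtain ⟨ha1, ha2, ha3, ha4⟩ := ha
  obtain ⟨hb1, hb2, hb3, hb4⟩ := hb
  have hab : ∀ τ : H, (a + b : FunV p n H) τ = a τ + b τ := fun τ => rfl
  refine ⟨ha1.add hb1, fun g h => ?_, fun P hP hN => ?_, fun P hP => ?_⟩
  · rw [hab, hab, hab, ha2 g h, hb2 g h]
    simp only [actV, Matrix.mulVec_add]
    abel
  · obtain ⟨v, hv⟩ := ha3 P hP hN
    obtain ⟨w, hw⟩ := hb3 P hP hN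
    refine ⟨v + w, fun τ hτ => ?_⟩
    rw [hab, hv τ hτ, hw τ hτ]
    simp only [actV, Matrix.mulVec_add]
    abel
  · obtain ⟨c, hc, hc'⟩ := ha4 P hP
    obtain ⟨d, hd, hd'⟩ := hb4 P hP
    exact ⟨c + d, (𝓛.L P).add_mem hc hd, fun τ hτ => by
      rw [hab, ← hc' τ hτ, ← hd' τ hτ]
      rfl⟩

theorem IsSelmer.zero (𝓛 : LocCond e ρ N₀) (H : Subgroup G) :
    IsSelmer 𝓛 H (0 : FunV p n H) := by
  refine ⟨continuous_const, fun g h => ?_, fun P hP hN => ⟨0, fun τ hτ => ?_⟩,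
      fun P hP => ⟨0, (𝓛.L P).zero_mem, fun τ hτ => rfl⟩⟩
  · show (0 : Fin n → ℚ_[p]) = 0 + actV (ρ g) 0
    simp [actV]
  · show (0 : Fin n → ℚ_[p]) = actV (ρ τ) 0 - 0
    simp [actV]

theorem IsSelmer.smul (𝓛 : LocCond e ρ N₀) (H : Subgroup G) (r : ℚ_[p]) {a : FunV p n H}
    (ha : IsSelmer 𝓛 H a) : IsSelmer 𝓛 H (r • a : FunV p n H) := by
  obtain ⟨ha1, ha2, ha3, ha4⟩ := ha
  have hab : ∀ τ : H, (r • a : FunV p n H) τ = r • a τ := fun τ => rfl
  refine ⟨ha1.const_smul r, fun g h => ?_, fun P hP hN => ?_, fun P hP => ?_⟩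
  · rw [hab, hab, hab, ha2 g h]
    simp only [actV, Matrix.mulVec_smul, smul_add]
  · obtain ⟨v, hv⟩ := ha3 P hP hN
    refine ⟨r • v, fun τ hτ => ?_⟩
    rw [hab, hv τ hτ]
    simp only [actV, Matrix.mulVec_smul, smul_sub]
  · obtain ⟨c, hc, hc'⟩ := ha4 P hP
    exact ⟨r • c, (𝓛.L P).smul_mem r hc, fun τ hτ => by
      rw [hab, ← hc' τ hτ]
      rfl⟩

/-- The space of the cocycles which satisfy the conditions. -/
def selmerCocycles (𝓛 : LocCond e ρ N₀) (H : Subgroup G) : Submodule ℚ_[p] (FunV p n H) where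
  carrier := {c | IsSelmer 𝓛 H c}
  add_mem' := IsSelmer.add 𝓛 H
  zero_mem' := IsSelmer.zero 𝓛 H
  smul_mem' := fun r _ => IsSelmer.smul 𝓛 H r

/-- `c` is a coboundary on `H`. -/
def IsCob (ρ : G →* GL (Fin n) ℤ_[p]) (H : Subgroup G) (c : H → Fin n → ℚ_[p]) : Prop :=
  ∃ v : Fin n → ℚ_[p], ∀ τ : H, c τ = actV (ρ τ) v - v

theorem IsCob.add (ρ : G →* GL (Fin n) ℤ_[p]) (H : Subgroup G) {a b : FunV p n H}
    (ha : IsCob ρ H a) (hb : IsCob ρ H b) : IsCob ρ H (a + b : FunV p n H) := by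
  obtain ⟨v, hv⟩ := ha
  obtain ⟨w, hw⟩ := hb
  refine ⟨v + w, fun τ => ?_⟩
  have hab : (a + b : FunV p n H) τ = a τ + b τ := rfl
  rw [hab, hv τ, hw τ]
  simp only [actV, Matrix.mulVec_add]
  abel

theorem IsCob.zero (ρ : G →* GL (Fin n) ℤ_[p]) (H : Subgroup G) :
    IsCob ρ H (0 : FunV p n H) := by
  refine ⟨0, fun τ => ?_⟩
  show (0 : Fin n → ℚ_[p]) = actV (ρ τ) 0 - 0
  simp [actV]

theorem IsCob.smul (ρ : G →* GL (Fin n) ℤ_[p]) (H : Subgroup G) (r : ℚ_[p]) {a : FunV p n H}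
    (ha : IsCob ρ H a) : IsCob ρ H (r • a : FunV p n H) := by
  obtain ⟨v, hv⟩ := ha
  refine ⟨r • v, fun τ => ?_⟩
  have hab : (r • a : FunV p n H) τ = r • a τ := rfl
  rw [hab, hv τ]
  simp only [actV, Matrix.mulVec_smul, smul_sub]

/-- The space of the coboundaries on `H`. -/
def coboundaries (ρ : G →* GL (Fin n) ℤ_[p]) (H : Subgroup G) : Submodule ℚ_[p] (FunV p n H) where
  carrier := {c | IsCob ρ H c}
  add_mem' := IsCob.add ρ H
  zero_mem' := IsCob.zero ρ H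
  smul_mem' := fun r _ => IsCob.smul ρ H r

/-- The Selmer group of `V` over the field which belongs to `H`. -/
def Selmer (𝓛 : LocCond e ρ N₀) (H : Subgroup G) : Type :=
  selmerCocycles 𝓛 H ⧸ (coboundaries ρ H).submoduleOf (selmerCocycles 𝓛 H)

noncomputable instance (𝓛 : LocCond e ρ N₀) (H : Subgroup G) : AddCommGroup (Selmer 𝓛 H) :=
  Submodule.Quotient.addCommGroup _

noncomputable instance (𝓛 : LocCond e ρ N₀) (H : Subgroup G) : Module ℚ_[p] (Selmer 𝓛 H) :=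
  Submodule.Quotient.module _

/-- `c` is a continuous crossed homomorphism `G → M` which is a coboundary on the inertia groups at
all maximal ideals not dividing `N₀` and, on the decomposition groups at the places of `S`, the
reduction of an integral element of the local condition of `V`. -/
def IsResSelmer (𝓛 : LocCond e ρ N₀) (c : G → Fin n → ZMod p) : Prop :=
  Continuous c ∧ (∀ g h : G, c (g * h) = c g + actM (ρ g) (c h)) ∧
    (∀ P : Ideal ZBar, P.IsMaximal → (N₀ : ZBar) ∉ P → ∃ x : Fin n → ZMod p,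
      ∀ τ : G, InInertia P (e τ) → c τ = actM (ρ τ) x - x) ∧
    ∀ P ∈ 𝓛.S, ∃ t : G → Fin n → ℤ_[p], ofInt t ∈ 𝓛.L P ∧
      ∀ φ : G, InDecomp P (e φ) → ∀ i, PadicInt.toZMod (t φ i) = c φ i

theorem IsResSelmer.add (𝓛 : LocCond e ρ N₀) {a b : FunM p n G}
    (ha : IsResSelmer 𝓛 a) (hb : IsResSelmer 𝓛 b) : IsResSelmer 𝓛 (a + b : FunM p n G) := by
  obtain ⟨ha1, ha2, ha3, ha4⟩ := ha
  obtain ⟨hb1, hb2, hb3, hb4⟩ := hb
  have hab : ∀ τ : G, (a + b : FunM p n G) τ = a τ + b τ := fun τ => rfl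
  refine ⟨ha1.add hb1, fun g h => ?_, fun P hP hN => ?_, fun P hP => ?_⟩
  · rw [hab, hab, hab, ha2 g h, hb2 g h]
    simp only [actM, Matrix.mulVec_add]
    abel
  · obtain ⟨v, hv⟩ := ha3 P hP hN
    obtain ⟨w, hw⟩ := hb3 P hP hN
    refine ⟨v + w, fun τ hτ => ?_⟩
    rw [hab, hv τ hτ, hw τ hτ]
    simp only [actM, Matrix.mulVec_add]
    abel
  · obtain ⟨c, hc, hc'⟩ := ha4 P hP
    obtain ⟨d, hd, hd'⟩ := hb4 P hP
    refine ⟨c + d, ?_, fun τ hτ i => ?_⟩
    · have h := (𝓛.L P).add_mem hc hd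
      refine (congrArg (· ∈ 𝓛.L P) ?_).mp h
      funext τ i
      show ((c τ i : ℤ_[p]) : ℚ_[p]) + ((d τ i : ℤ_[p]) : ℚ_[p]) = ((c τ i + d τ i : ℤ_[p]) : ℚ_[p])
      rw [PadicInt.coe_add]
    · rw [hab]
      show PadicInt.toZMod (c τ i + d τ i) = a τ i + b τ i
      rw [map_add, hc' τ hτ i, hd' τ hτ i]

theorem IsResSelmer.zero (𝓛 : LocCond e ρ N₀) : IsResSelmer 𝓛 (0 : FunM p n G) := by
  refine ⟨continuous_const, fun g h => ?_, fun P hP hN => ⟨0, fun τ hτ => ?_⟩,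
      fun P hP => ⟨0, ?_, fun τ hτ i => ?_⟩⟩
  · show (0 : Fin n → ZMod p) = 0 + actM (ρ g) 0
    simp [actM]
  · show (0 : Fin n → ZMod p) = actM (ρ τ) 0 - 0
    simp [actM]
  · refine (congrArg (· ∈ 𝓛.L P) ?_).mp (𝓛.L P).zero_mem
    funext τ i
    show (0 : ℚ_[p]) = (((0 : ℤ_[p]) : ℤ_[p]) : ℚ_[p])
    rw [PadicInt.coe_zero]
  · show PadicInt.toZMod (0 : ℤ_[p]) = (0 : ZMod p)
    rw [map_zero]

theorem IsResSelmer.smul (𝓛 : LocCond e ρ N₀) (r : ZMod p) {a : FunM p n G}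
    (ha : IsResSelmer 𝓛 a) : IsResSelmer 𝓛 (r • a : FunM p n G) := by
  obtain ⟨ha1, ha2, ha3, ha4⟩ := ha
  have hab : ∀ τ : G, (r • a : FunM p n G) τ = r • a τ := fun τ => rfl
  refine ⟨ha1.const_smul r, fun g h => ?_, fun P hP hN => ?_, fun P hP => ?_⟩
  · rw [hab, hab, hab, ha2 g h]
    simp only [actM, Matrix.mulVec_smul, smul_add]
  · obtain ⟨v, hv⟩ := ha3 P hP hN
    refine ⟨r • v, fun τ hτ => ?_⟩
    rw [hab, hv τ hτ]
    simp only [actM, Matrix.mulVec_smul, smul_sub]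
  · obtain ⟨c, hc, hc'⟩ := ha4 P hP
    refine ⟨fun τ i => ((r.val : ℕ) : ℤ_[p]) * c τ i, ?_, fun τ hτ i => ?_⟩
    · have h := (𝓛.L P).smul_mem ((r.val : ℕ) : ℚ_[p]) hc
      refine (congrArg (· ∈ 𝓛.L P) ?_).mp h
      funext τ i
      show ((r.val : ℕ) : ℚ_[p]) * ((c τ i : ℤ_[p]) : ℚ_[p]) =
        ((((r.val : ℕ) : ℤ_[p]) * c τ i : ℤ_[p]) : ℚ_[p])
      rw [PadicInt.coe_mul, PadicInt.coe_natCast]
    · show PadicInt.toZMod (((r.val : ℕ) : ℤ_[p]) * c τ i) = r * a τ i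
      rw [map_mul, map_natCast, hc' τ hτ i, ZMod.natCast_zmod_val]

/-- The space of the residual cocycles which satisfy the conditions. -/
def resCocycles (𝓛 : LocCond e ρ N₀) : Submodule (ZMod p) (FunM p n G) where
  carrier := {c | IsResSelmer 𝓛 c}
  add_mem' := IsResSelmer.add 𝓛
  zero_mem' := IsResSelmer.zero 𝓛
  smul_mem' := fun r _ => IsResSelmer.smul 𝓛 r

/-- `c` is a coboundary with values in `M`. -/
def IsResCob (ρ : G →* GL (Fin n) ℤ_[p]) (c : G → Fin n → ZMod p) : Prop :=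
  ∃ x : Fin n → ZMod p, ∀ τ : G, c τ = actM (ρ τ) x - x

theorem IsResCob.add (ρ : G →* GL (Fin n) ℤ_[p]) {a b : FunM p n G}
    (ha : IsResCob ρ a) (hb : IsResCob ρ b) : IsResCob ρ (a + b : FunM p n G) := by
  obtain ⟨v, hv⟩ := ha
  obtain ⟨w, hw⟩ := hb
  refine ⟨v + w, fun τ => ?_⟩
  have hab : (a + b : FunM p n G) τ = a τ + b τ := rfl
  rw [hab, hv τ, hw τ]
  simp only [actM, Matrix.mulVec_add]
  abel

theorem IsResCob.zero (ρ : G →* GL (Fin n) ℤ_[p]) : IsResCob ρ (0 : FunM p n G) := by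
  refine ⟨0, fun τ => ?_⟩
  show (0 : Fin n → ZMod p) = actM (ρ τ) 0 - 0
  simp [actM]

theorem IsResCob.smul (ρ : G →* GL (Fin n) ℤ_[p]) (r : ZMod p) {a : FunM p n G}
    (ha : IsResCob ρ a) : IsResCob ρ (r • a : FunM p n G) := by
  obtain ⟨v, hv⟩ := ha
  refine ⟨r • v, fun τ => ?_⟩
  have hab : (r • a : FunM p n G) τ = r • a τ := rfl
  rw [hab, hv τ]
  simp only [actM, Matrix.mulVec_smul, smul_sub]

/-- The space of the coboundaries with values in `M`. -/
def resCoboundaries (ρ : G →* GL (Fin n) ℤ_[p]) : Submodule (ZMod p) (FunM p n G) where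
  carrier := {c | IsResCob ρ c}
  add_mem' := IsResCob.add ρ
  zero_mem' := IsResCob.zero ρ
  smul_mem' := fun r _ => IsResCob.smul ρ r

/-- The residual Selmer group. -/
def ResSelmer (𝓛 : LocCond e ρ N₀) : Type :=
  resCocycles 𝓛 ⧸ (resCoboundaries ρ).submoduleOf (resCocycles 𝓛)

noncomputable instance (𝓛 : LocCond e ρ N₀) : AddCommGroup (ResSelmer 𝓛) :=
  Submodule.Quotient.addCommGroup _

noncomputable instance (𝓛 : LocCond e ρ N₀) : Module (ZMod p) (ResSelmer 𝓛) :=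
  Submodule.Quotient.module _

/-- The extension which belongs to the subgroup `H` of `G` is good: it is completely split at the
places of `S`, and at each `P` not dividing `N₀` it is unramified or `M` has no nonzero vector fixed
by the decomposition group of `P` in `G`. -/
def Good (𝓛 : LocCond e ρ N₀) (H : Subgroup G) : Prop :=
  (∀ P ∈ 𝓛.S, ∀ φ : G, InDecomp P (e φ) → φ ∈ H) ∧
  ∀ P : Ideal ZBar, P.IsMaximal → (N₀ : ZBar) ∉ P →
    (∀ τ : G, InInertia P (e τ) → τ ∈ H) ∨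
    ∀ x : Fin n → ZMod p, (∀ φ : G, InDecomp P (e φ) → actM (ρ φ) x = x) → x = 0

end Pool.Agent.Y803.SEL.Out
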