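import Pool.Agent.Y803.SEL.Extd

/-! The step from a subgroup to a normal subgroup of index `p`. -/

set_option autoImplicit false
set_option linter.all false

namespace Pool.Agent.Y803.SEL

open Module
open scoped Classical

theorem comm_mem {p : ℕ} [Fact p.Prime] {G : Type} [Group G] {H N : Subgroup G}
    (hidx : N.relIndex H = p) (hnorm : ∀ g ∈ H, ∀ h ∈ N, g * h * g⁻¹ ∈ N) :
    ∀ g ∈ H, ∀ h ∈ H, g * h * g⁻¹ * h⁻¹ ∈ N := by
  intro g hg h hh
  haveI hK : (N.subgroupOf H).Normal := ⟨fun n hn g => hnorm g g.2 n hn⟩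
  have hcard : Nat.card (H ⧸ N.subgroupOf H) = p := hidx
  haveI : IsCyclic (H ⧸ N.subgroupOf H) := isCyclic_of_prime_card hcard
  have hc : ∀ a b : H ⧸ N.subgroupOf H, a * b = b * a := by
    intro a b
    letI := IsCyclic.commGroup (α := H ⧸ N.subgroupOf H)
    exact mul_comm a b
  have h1 : ((⟨g, hg⟩ * ⟨h, hh⟩ * ⟨g, hg⟩⁻¹ * ⟨h, hh⟩⁻¹ : H) : H ⧸ N.subgroupOf H) = 1 := by
    rw [QuotientGroup.mk_mul, QuotientGroup.mk_mul, QuotientGroup.mk_mul, hc (QuotientGroup.mk ⟨g, hg⟩) _]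
    rw [QuotientGroup.mk_inv, QuotientGroup.mk_inv]
    group
  have h2 := (QuotientGroup.eq_one_iff _).1 h1
  exact h2

theorem pow_mem' {p : ℕ} [Fact p.Prime] {G : Type} [Group G] {H N : Subgroup G}
    (hidx : N.relIndex H = p) (hnorm : ∀ g ∈ H, ∀ h ∈ N, g * h * g⁻¹ ∈ N) :
    ∀ g ∈ H, g ^ p ∈ N := by
  intro g hg
  haveI hK : (N.subgroupOf H).Normal := ⟨fun n hn g => hnorm g g.2 n hn⟩
  have h := Subgroup.pow_index_mem (H := N.subgroupOf H) ⟨g, hg⟩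
  have e : (N.subgroupOf H).index = p := hidx
  rw [e] at h
  exact h

variable {p : ℕ} [Fact p.Prime] {G M ι : Type} [Group G] [TopologicalSpace G]
  [IsTopologicalGroup G] [AddCommGroup M] [Module (ZMod p) M] [TopologicalSpace M]
  [DiscreteTopology M] [MulAction G ι] (𝒟 : Dat p G M ι)

/-- restriction of functions -/
noncomputable def cut (N : Subgroup G) : (G → M) →ₗ[ZMod p] (G → M) where
  toFun f := fun g => if g ∈ N then f g else 0
  map_add' f g := by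
    funext x
    by_cases h : x ∈ N <;> simp [h]
  map_smul' s f := by
    funext x
    by_cases h : x ∈ N <;> simp [h]

omit [TopologicalSpace G] [IsTopologicalGroup G] [TopologicalSpace M] [DiscreteTopology M] in
theorem cut_of_mem {N : Subgroup G} (f : G → M) {g : G} (hg : g ∈ N) :
    cut (p := p) N f g = f g := if_pos hg

omit [TopologicalSpace G] [IsTopologicalGroup G] [TopologicalSpace M] [DiscreteTopology M] in
theorem cut_of_not_mem {N : Subgroup G} (f : G → M) {g : G} (hg : g ∉ N) :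
    cut (p := p) N f g = 0 := if_neg hg

theorem cut_mem_Z {H N : Subgroup G} (hNH : N ≤ H) (hNo : IsOpen (N : Set G)) {f : G → M}
    (hf : f ∈ 𝒟.Z H) : cut (p := p) N f ∈ 𝒟.Z N := by
  obtain ⟨h1, h2, h3, h4, h5⟩ := hf
  refine ⟨?_, fun g hg => cut_of_not_mem f hg, fun g hg h hh => ?_, fun i hi τ hτ hτN => ?_,
    fun i hi => ?_⟩
  · have hloc : IsLocallyConstant (cut (p := p) N f) := by
      rw [IsLocallyConstant.iff_exists_open]
      intro g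
      by_cases hg : g ∈ N
      · refine ⟨(N : Set G) ∩ f ⁻¹' {f g}, hNo.inter ((isOpen_discrete _).preimage h1), ⟨hg, rfl⟩, ?_⟩
        rintro x ⟨hx1, hx2⟩
        rw [cut_of_mem f hg, cut_of_mem f hx1]
        exact hx2
      · refine ⟨(N : Set G)ᶜ, (Subgroup.isClosed_of_isOpen N hNo).isOpen_compl, hg, ?_⟩
        intro x hx
        rw [cut_of_not_mem f hg, cut_of_not_mem f hx]
    exact hloc.continuous
  · rw [cut_of_mem f (N.mul_mem hg hh), cut_of_mem f hg, cut_of_mem f hh, h3 g (hNH hg) h (hNH hh)]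
  · rw [cut_of_mem f hτN, h4 i hi τ hτ (hNH hτN)]
  · obtain ⟨c, hc, hc'⟩ := h5 i hi
    refine ⟨c, hc, fun φ hφ hφN => ?_⟩
    rw [cut_of_mem f hφN, hc' φ hφ (hNH hφN)]

omit [IsTopologicalGroup G] [DiscreteTopology M] in
theorem cut_mem_B {H N : Subgroup G} (hNH : N ≤ H) {f : G → M}
    (hf : f ∈ 𝒟.B H) : cut (p := p) N f ∈ 𝒟.B N := by
  obtain ⟨x, hx, hx'⟩ := hf
  refine ⟨x, fun g hg => ?_, fun g hg => cut_of_not_mem f hg⟩
  rw [cut_of_mem f hg, hx g (hNH hg)]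

theorem sub_one_pow_eq {R : Type} [Ring R] [Algebra (ZMod p) R] (a : R) (ha : a ^ p = 1) :
    (a - 1) ^ p = 0 := by
  have h : ((Polynomial.X : Polynomial (ZMod p)) - 1) ^ p = Polynomial.X ^ p - 1 := by
    rw [sub_pow_char, one_pow]
  have h2 := congrArg (fun q => Polynomial.aeval a q) h
  simp only [map_pow, map_sub, Polynomial.aeval_X, map_one] at h2
  rw [h2, ha, sub_self]

/-- the step -/
theorem step {H N : Subgroup G} (hNH : N ≤ H) (hidx : N.relIndex H = p)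
    (hnorm : ∀ g ∈ H, ∀ h ∈ N, g * h * g⁻¹ ∈ N)
    (hNo : IsOpen (N : Set G))
    (hMN : ∀ x : M, (∀ τ ∈ N, 𝒟.r τ x = x) → x = 0) (hsplit : ∀ i ∈ 𝒟.S, 𝒟.D i ≤ N)
    (hgood : ∀ i ∈ 𝒟.U, (∀ τ ∈ 𝒟.I i, τ ∈ H → τ ∈ N) ∨
      ∀ x : M, (∀ φ ∈ 𝒟.D i, φ ∈ H → 𝒟.r φ x = x) → x = 0) :
    Module.rank (ZMod p) (𝒟.W N) ≤ p * Module.rank (ZMod p) (𝒟.W H) := by
  have hp : p.Prime := Fact.out
  have hcomm := comm_mem hidx hnorm
  have hpow := pow_mem' hidx hnorm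
  have hconj : ∀ g ∈ H, ∀ τ, g⁻¹ * τ * g ∈ N ↔ τ ∈ N := by
    intro g hg τ
    constructor
    · intro h
      have := hnorm g hg _ h
      convert this using 1
      group
    · intro h
      have := hnorm g⁻¹ (H.inv_mem hg) _ h
      rwa [inv_inv] at this
  -- an element outside
  obtain ⟨σ, hσ, hσN⟩ : ∃ σ ∈ H, σ ∉ N := by
    by_contra hcon
    push Not at hcon
    have : N.relIndex H = 1 := Subgroup.relIndex_eq_one.2 hcon
    rw [hidx] at this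
    exact hp.one_lt.ne' this
  -- the operator
  let AZ : 𝒟.Z N →ₗ[ZMod p] 𝒟.Z N :=
    (𝒟.A σ).restrict (fun f hf => A_mem_Z 𝒟 (hconj σ hσ) hf)
  have hAZ : (𝒟.B N).submoduleOf (𝒟.Z N) ≤ ((𝒟.B N).submoduleOf (𝒟.Z N)).comap AZ := by
    intro f hf
    exact A_mem_B 𝒟 (hconj σ hσ) hf
  let Ab : 𝒟.W N →ₗ[ZMod p] 𝒟.W N := Submodule.mapQ _ _ AZ hAZ
  have hAZpow : ∀ (k : ℕ) (f : 𝒟.Z N), (((AZ ^ k) f : 𝒟.Z N) : G → M) = (𝒟.A σ ^ k) (f : G → M) := by
    intro k f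
    induction k with
    | zero => rfl
    | succ k ih =>
      rw [pow_succ', pow_succ']
      have e : (AZ * AZ ^ k) f = AZ ((AZ ^ k) f) := rfl
      have e2 : (𝒟.A σ * 𝒟.A σ ^ k) (f : G → M) = 𝒟.A σ ((𝒟.A σ ^ k) (f : G → M)) := rfl
      rw [e, e2, ← ih]
      rfl
  have hAbpow : ∀ (k : ℕ) (f : 𝒟.Z N), (Ab ^ k) (Submodule.Quotient.mk f) =
      Submodule.Quotient.mk ((AZ ^ k) f) := by
    intro k f
    induction k with
    | zero => rfl
    | succ k ih =>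
      rw [pow_succ', pow_succ']
      have e : (Ab * Ab ^ k) (Submodule.Quotient.mk f) = Ab ((Ab ^ k) (Submodule.Quotient.mk f)) := rfl
      rw [e, ih]
      rfl
  have hAb1 : Ab ^ p = 1 := by
    apply LinearMap.ext
    intro w
    obtain ⟨f, rfl⟩ := Submodule.Quotient.mk_surjective _ w
    rw [hAbpow]
    have e : (1 : Module.End (ZMod p) (𝒟.W N)) (Submodule.Quotient.mk f) = Submodule.Quotient.mk f := rfl
    rw [e, Submodule.Quotient.eq]
    show (((AZ ^ p) f - f : 𝒟.Z N) : G → M) ∈ 𝒟.B N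
    have e2 : (((AZ ^ p) f - f : 𝒟.Z N) : G → M) = (𝒟.A (σ ^ p) (f : G → M)) - (f : G → M) := by
      rw [A_pow, ← hAZpow]
      rfl
    rw [e2]
    refine ⟨(f : G → M) (σ ^ p), fun τ hτ => ?_, fun τ hτ => ?_⟩
    · rw [Pi.sub_apply, A_inner 𝒟 f.2 (hpow σ hσ) τ hτ]
      abel
    · have hAf := A_mem_Z 𝒟 (hconj (σ ^ p) (H.pow_mem hσ p)) f.2
      rw [Pi.sub_apply, hAf.2.1 τ hτ, f.2.2.1 τ hτ, sub_zero]
  have hT : (Ab - 1) ^ p = 0 := sub_one_pow_eq (p := p) Ab hAb1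
  refine rank_le_of_nilpotent (Ab - 1) p hT _ ?_
  -- the restriction map
  let R : 𝒟.Z H →ₗ[ZMod p] 𝒟.Z N := (cut (p := p) N).restrict (fun f hf => cut_mem_Z 𝒟 hNH hNo hf)
  have hR : (𝒟.B H).submoduleOf (𝒟.Z H) ≤ ((𝒟.B N).submoduleOf (𝒟.Z N)).comap R := by
    intro f hf
    exact cut_mem_B 𝒟 hNH hf
  let Rb : 𝒟.W H →ₗ[ZMod p] 𝒟.W N := Submodule.mapQ _ _ R hR
  refine le_trans (Submodule.rank_mono (?_ : LinearMap.ker (Ab - 1) ≤ LinearMap.range Rb))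
    (rank_range_le Rb)
  intro w hw
  obtain ⟨f, rfl⟩ := Submodule.Quotient.mk_surjective _ w
  rw [LinearMap.mem_ker] at hw
  have hw2 : (Submodule.Quotient.mk (AZ f) : 𝒟.W N) - Submodule.Quotient.mk f = 0 := hw
  rw [sub_eq_zero, Submodule.Quotient.eq] at hw2
  have hw3 : ((AZ f - f : 𝒟.Z N) : G → M) ∈ 𝒟.B N := hw2
  obtain ⟨x₀, hx₀, -⟩ := hw3
  have hex : Ex 𝒟 N (f : G → M) σ x₀ := by
    intro τ hτ
    rw [← hx₀ τ hτ]
    show 𝒟.A σ (f : G → M) τ = (f : G → M) τ + (𝒟.A σ (f : G → M) τ - (f : G → M) τ)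
    abel
  obtain ⟨F, hF, hFf⟩ := extend 𝒟 hNH (by rw [hidx]; exact hp) hnorm hcomm hNo hMN hsplit hgood hσ
    hσN f.2 hex
  refine ⟨Submodule.Quotient.mk ⟨F, hF⟩, ?_⟩
  show (Submodule.Quotient.mk (R ⟨F, hF⟩) : 𝒟.W N) = Submodule.Quotient.mk f
  congr 1
  apply Subtype.ext
  funext τ
  show cut (p := p) N F τ = (f : G → M) τ
  by_cases hτ : τ ∈ N
  · rw [cut_of_mem F hτ, hFf τ hτ]
  · rw [cut_of_not_mem F hτ, f.2.2.1 τ hτ]

end Pool.Agent.Y803.SEL
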