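import Pool.Agent.Y803.SEL.Defs

/-! Statements of the parts of the project SEL. -/

set_option autoImplicit false

namespace Pool.Agent.Y803.SEL

open Pool.Agent.Y800

/-- LAT: a space of bounded `ℚ_p`-valued functions is at most as large as the reductions of its
integral elements. -/
def S_LAT : Prop :=
  ∀ (p : ℕ) [Fact p.Prime] (X : Type) (n : ℕ) (E : Submodule ℚ_[p] (X → Fin n → ℚ_[p]))
    (R : Submodule (ZMod p) (X → Fin n → ZMod p)),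
    (∀ f ∈ E, ∃ C : ℝ, ∀ x i, ‖f x i‖ ≤ C) → FiniteDimensional (ZMod p) R →
    (∀ t : X → Fin n → ℤ_[p], (fun x i => ((t x i : ℤ_[p]) : ℚ_[p])) ∈ E →
      (fun x i => PadicInt.toZMod (t x i)) ∈ R) →
    FiniteDimensional ℚ_[p] E ∧ Module.finrank ℚ_[p] E ≤ Module.finrank (ZMod p) R

/-- FIN: finiteness of the residual cocycles (Hermite-Minkowski). -/
def S_FIN : Prop :=
  ∀ (p : ℕ) [Fact p.Prime] (n : ℕ) (Γ : Subgroup GQ), IsOpen (Γ : Set GQ) →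
    ∀ (ρ : Γ →* GL (Fin n) ℤ_[p]), Continuous ρ → ∀ N₀ : ℕ, N₀ ≠ 0 →
    (∀ P : Ideal ZBar, P.IsMaximal → (N₀ : ZBar) ∉ P → ∀ τ : Γ, InInertia P (τ : GQ) → ρ τ = 1) →
    {c : Γ → Fin n → ZMod p | Continuous c ∧ (∀ g h : Γ, c (g * h) = c g + actM (ρ g) (c h)) ∧
      ∀ P : Ideal ZBar, P.IsMaximal → (N₀ : ZBar) ∉ P →
        ∀ τ : Γ, InInertia P (τ : GQ) → c τ = 0}.Finite

/-- FIX: a `p`-group acting on a nonzero `𝔽_p`-space has a nonzero fixed vector. -/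
def S_FIX : Prop :=
  ∀ (p : ℕ) [Fact p.Prime] (Γ : Type) [Group Γ] (M : Type) [AddCommGroup M] [Module (ZMod p) M]
    [Finite M] (r : Γ →* Module.End (ZMod p) M) (D N : Subgroup Γ) (s : ℕ),
    N.Normal → N.index = p ^ s → (∀ x : M, (∀ φ ∈ D, r φ x = x) → x = 0) →
    ∀ x : M, (∀ φ ∈ D, φ ∈ N → r φ x = x) → x = 0

/-- TOW: induction along a chain of subgroups, each of index `p` and normal in the one before. -/
def S_TOW : Prop :=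
  ∀ (p : ℕ) [Fact p.Prime] (Γ : Type) [Group Γ] (N : Subgroup Γ) (s : ℕ),
    N.Normal → N.index = p ^ s → ∀ Pr : ℕ → Subgroup Γ → Prop, Pr 0 ⊤ →
    (∀ (k : ℕ) (H H' : Subgroup Γ), N ≤ H' → H' ≤ H → H'.relIndex H = p →
      (∀ g ∈ H, ∀ h ∈ H', g * h * g⁻¹ ∈ H') → Pr k H → Pr (k + 1) H') → Pr s N

/-- CHEB: infinitely many auxiliary primes. -/
def S_CHEB : Prop :=
  ∀ (p : ℕ) [Fact p.Prime] (n : ℕ) (Γ : Subgroup GQ), IsOpen (Γ : Set GQ) →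
    ∀ (ρ : Γ →* GL (Fin n) ℤ_[p]), Continuous ρ → ∀ N₀ : ℕ, N₀ ≠ 0 → ∀ σ : GQ,
    (∀ z : AlgebraicClosure ℚ, z ^ p = 1 → σ z = z) →
    (∀ g : GQ, ∃ h : g * σ * g⁻¹ ∈ Γ,
      ∀ x : Fin n → ZMod p, actM (ρ ⟨g * σ * g⁻¹, h⟩) x = x → x = 0) →
    ∀ m : ℕ, {q : ℕ | q.Prime ∧ ¬ q ∣ N₀ ∧ q ≡ 1 [MOD p ^ m] ∧
      (∀ l : ℕ, l.Prime → l ∣ N₀ → ∃ a : ZMod q, a ^ p ^ m = (l : ZMod q)) ∧
      ∀ P : Ideal ZBar, P.IsMaximal → (q : ZBar) ∈ P → ∃ φ : Γ, InDecomp P (φ : GQ) ∧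
        ∀ x : Fin n → ZMod p, actM (ρ φ) x = x → x = 0}.Infinite

/-- CYC: inertia and decomposition groups in a subfield of the field of the `f`-th roots of unity. -/
def S_CYC : Prop :=
  ∀ (p : ℕ) [Fact p.Prime] (m f : ℕ), f ≠ 0 → ∀ H : Subgroup GQ,
    (∀ g : GQ, (∀ z : AlgebraicClosure ℚ, z ^ f = 1 → g z = z) → g ∈ H) →
    (∀ P : Ideal ZBar, P.IsMaximal → (f : ZBar) ∉ P → ∀ τ : GQ, InInertia P τ → τ ∈ H) ∧
    ((∀ g : GQ, g ^ p ^ m ∈ H) → ∀ l : ℕ, l.Prime → l.Coprime f →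
      (∃ a : ZMod f, a ^ p ^ m = (l : ZMod f)) →
      ∀ P : Ideal ZBar, P.IsMaximal → (l : ZBar) ∈ P → ∀ φ : GQ, InDecomp P φ → φ ∈ H)

end Pool.Agent.Y803.SEL
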