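import Pool.Agent.Y803.SEL.Step
import Pool.Agent.Y803.SEL.Stm

/-! The bound in a Galois extension of degree a power of `p`. -/

set_option autoImplicit false
set_option linter.all false

namespace Pool.Agent.Y803.SEL

open Module
open scoped Classical

variable {p : ℕ} [Fact p.Prime] {G M ι : Type} [Group G] [TopologicalSpace G]
  [IsTopologicalGroup G] [AddCommGroup M] [Module (ZMod p) M] [TopologicalSpace M]
  [DiscreteTopology M] [MulAction G ι] (𝒟 : Dat p G M ι)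

theorem tower (htow : S_TOW) (hfix : S_FIX) [Finite M] (N : Subgroup G) (s : ℕ) (hN : N.Normal)
    (hidx : N.index = p ^ s) (hNo : IsOpen (N : Set G))
    (hM : ∀ x : M, (∀ g : G, 𝒟.r g x = x) → x = 0) (hsplit : ∀ i ∈ 𝒟.S, 𝒟.D i ≤ N)
    (hgood : ∀ i ∈ 𝒟.U, (∀ τ ∈ 𝒟.I i, τ ∈ N) ∨ ∀ x : M, (∀ φ ∈ 𝒟.D i, 𝒟.r φ x = x) → x = 0) :
    Module.rank (ZMod p) (𝒟.W N) ≤ (p : Cardinal) ^ s * Module.rank (ZMod p) (𝒟.W ⊤) := by
  refine htow p G N s hN hidx
    (fun k H => Module.rank (ZMod p) (𝒟.W H) ≤ (p : Cardinal) ^ k * Module.rank (ZMod p) (𝒟.W ⊤))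
    ?_ ?_
  · rw [pow_zero, one_mul]
  · intro k H H' hNH' hH'H hrel hnorm ih
    have h := step 𝒟 hH'H hrel hnorm (Subgroup.isOpen_mono hNH' hNo) ?_ ?_ ?_
    · refine le_trans h ?_
      rw [pow_succ', mul_assoc]
      exact mul_le_mul_right ih _
    · intro x hx
      exact hfix p G M 𝒟.r ⊤ N s hN hidx (fun x hx => hM x (fun g => hx g trivial)) x
        (fun φ _ hφ => hx φ (hNH' hφ))
    · intro i hi
      exact (hsplit i hi).trans hNH'
    · intro i hi
      rcases hgood i hi with h | h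
      · exact Or.inl (fun τ hτ _ => hNH' (h τ hτ))
      · refine Or.inr (fun x hx => ?_)
        exact hfix p G M 𝒟.r (𝒟.D i) N s hN hidx h x
          (fun φ hφ hφN => hx φ hφ (hH'H (hNH' hφN)))

end Pool.Agent.Y803.SEL
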